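import Pool.Agent.Lib.MP_9aa437_nt.Quad.Corr2

set_option autoImplicit false

/-!
# The order of magnitude of the number of representations by the cubic polynomial `p₁`

For every `t ≥ 1` (in particular `t = 252`) and every `ε > 0` there are `0 < c < C` and `X₀` such
that for `X ≥ X₀` all but `ε X` of the integers `l` in `[1, X]` are such that the number of
representations `t * l = z (x (5 y - 1) - y) - x` with positive integers `x, y, z` lies between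
`c (log X)²` and `C (log X)²`.  The lower bound holds in every interval `(Z, Z + X]`.
-/

namespace Pool.Agent.Results.MP_9aa437_nt.ExactOrder

open Pool.Agent.Lib.MP_9aa437_nt Pool.Agent.Lib.MP_9aa437_nt.Quad Finset

/-- The polynomial `p₁(x, y, z) = z (x (5 y - 1) - y) - x`. -/
def p₁ (x y z : ℤ) : ℤ := z * (x * (5 * y - 1) - y) - x

/-- `n` has at least `k` representations: there is a finite set of at least `k` triples
`(x, y, z)` of positive integers with `p₁ x y z = n`. -/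
def AtLeast (k : ℝ) (n : ℤ) : Prop :=
  ∃ S : Finset (ℤ × ℤ × ℤ), k ≤ (S.card : ℝ) ∧
    ∀ v ∈ S, 0 < v.1 ∧ 0 < v.2.1 ∧ 0 < v.2.2 ∧ p₁ v.1 v.2.1 v.2.2 = n

/-! ### Good residue classes -/

/-- If `p = m z - 1` with `m = 5 y - 1` divides `m q + y`, then `q = p₁ x y z` for some `x`. -/
lemma triple_of_dvd {y z q : ℤ} (hy : 0 < y) (hz : 0 < z) (hq : 0 ≤ q)
    (h : (5 * y - 1) * z - 1 ∣ (5 * y - 1) * q + y) : ∃ x : ℤ, 0 < x ∧ p₁ x y z = q := by
  set m := 5 * y - 1 with hm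
  have hm1 : 4 ≤ m := by omega
  have hp : 0 < m * z - 1 := by nlinarith
  have hco : IsCoprime (m * z - 1) m := ⟨-1, z, by ring⟩
  have h2 : m * z - 1 ∣ m * (q + y * z) := by
    have : m * (q + y * z) = (m * q + y) + y * (m * z - 1) := by ring
    rw [this]
    exact dvd_add h (Dvd.intro_left _ rfl)
  have h3 : m * z - 1 ∣ q + y * z := hco.dvd_of_dvd_mul_left h2
  obtain ⟨x, hx⟩ := h3
  have hpos : 0 < q + y * z := by positivity
  refine ⟨x, ?_, ?_⟩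
  · by_contra hneg
    push Not at hneg
    have : (m * z - 1) * x ≤ 0 := mul_nonpos_of_nonneg_of_nonpos hp.le hneg
    omega
  · unfold p₁
    rw [← hm]
    have : z * (x * m - y) - x = (m * z - 1) * x - y * z := by ring
    rw [this, ← hx]; ring

/-! ### Moments of the number of good classes -/

/-- the pairs `(y, k)` for which `l` lies in the good class -/
def hits (P t Z Y l : ℕ) : Finset (ℕ × ℕ) := (V Y).filter (fun v => Hit P t Z v.1 v.2 l)

lemma atLeast_of_hits {P t Z Y l : ℕ} (hP : 0 < P) :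
    AtLeast ((hits P t Z Y l).card : ℝ) ((t : ℤ) * ((l : ℤ) + Z)) := by
  classical
  have h : ∀ v ∈ hits P t Z Y l, ∃ x : ℤ, 0 < x ∧
      p₁ x (v.1 : ℤ) ((P : ℤ) * v.2) = (t : ℤ) * ((l : ℤ) + Z) := by
    intro v hv
    rw [hits, Finset.mem_filter] at hv
    obtain ⟨hv1, hv2⟩ := hv
    obtain ⟨⟨a1, a2⟩, ⟨a3, a4⟩⟩ := mem_V hv1
    have hP' : (0 : ℤ) < P := by exact_mod_cast hP
    have e1 : (0 : ℤ) < (v.1 : ℤ) := by exact_mod_cast a1
    have e2 : (0 : ℤ) < (v.2 : ℤ) := by exact_mod_cast a3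
    refine triple_of_dvd (y := (v.1 : ℤ)) (z := (P : ℤ) * v.2) e1 (by positivity) (by positivity) ?_
    have e3 : ((M P v.1 v.2 : ℕ) : ℤ) = (5 * (v.1 : ℤ) - 1) * ((P : ℤ) * v.2) - 1 := by
      have h1 : ((M P v.1 v.2 + 1 : ℕ) : ℤ) = (((5 * v.1 - 1) * P * v.2 : ℕ) : ℤ) := by
        rw [M_succ hP a1 a3]
      rw [Nat.cast_mul, Nat.cast_mul, Nat.cast_sub (by omega)] at h1
      push_cast at h1
      linarith
    rw [← e3]
    unfold Hit at hv2
    have h2 := Int.natCast_dvd_natCast.mpr hv2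
    rw [Nat.cast_add, Nat.cast_mul, Nat.cast_sub (by omega)] at h2
    push_cast at h2
    exact h2
  choose! f hf using h
  refine ⟨(hits P t Z Y l).image (fun v => (f v, ((v.1 : ℤ), (P : ℤ) * v.2))), ?_, ?_⟩
  · rw [Finset.card_image_of_injOn]
    intro v _ v' _ hvv
    simp only [Prod.mk.injEq] at hvv
    have h1 : v.1 = v'.1 := by exact_mod_cast hvv.2.1
    have hP' : (P : ℤ) ≠ 0 := by exact_mod_cast hP.ne'
    have h2 : (v.2 : ℤ) = v'.2 := mul_left_cancel₀ hP' hvv.2.2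
    exact Prod.ext h1 (by exact_mod_cast h2)
  · intro u hu
    obtain ⟨v, hv, rfl⟩ := Finset.mem_image.mp hu
    have hv1 := (Finset.mem_filter.mp hv).1
    obtain ⟨⟨a1, a2⟩, ⟨a3, a4⟩⟩ := mem_V hv1
    have hP' : (0 : ℤ) < P := by exact_mod_cast hP
    have e1 : (0 : ℤ) < (v.1 : ℤ) := by exact_mod_cast a1
    have e2 : (0 : ℤ) < (v.2 : ℤ) := by exact_mod_cast a3
    exact ⟨(hf v hv).1, e1, by positivity, (hf v hv).2⟩

lemma AtLeast.mono {j k : ℝ} {n : ℤ} (h : j ≤ k) (hk : AtLeast k n) : AtLeast j n := by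
  obtain ⟨S, h1, h2⟩ := hk
  exact ⟨S, h.trans h1, h2⟩

/-- the mean -/
noncomputable def mu (P Y : ℕ) : ℝ := ∑ v ∈ V Y, (1 / M P v.1 v.2 : ℝ)

lemma mu_nonneg (P Y : ℕ) : 0 ≤ mu P Y := Finset.sum_nonneg fun _ _ => by positivity

lemma card_V (Y : ℕ) : ((V Y).card : ℝ) = (Y : ℝ) ^ 2 := by
  rw [V, Finset.card_product, Nat.card_Icc]
  push_cast [Nat.add_sub_cancel]
  ring

lemma mu_le {P Y : ℕ} (hP : 0 < P) : mu P Y ≤ (Y : ℝ) ^ 2 := by
  rw [← card_V, mu, ← nsmul_one ((V Y).card), ← Finset.sum_const]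
  refine Finset.sum_le_sum fun v hv => ?_
  obtain ⟨⟨a1, a2⟩, ⟨a3, a4⟩⟩ := mem_V hv
  have h1 := M_pos hP a1 a3
  have h2 : (1 : ℝ) ≤ M P v.1 v.2 := by exact_mod_cast (by omega : 1 ≤ M P v.1 v.2)
  exact (div_le_one (by linarith)).mpr h2

lemma mu_lower {P Y : ℕ} (hP : 0 < P) : H Y ^ 2 / (5 * P) ≤ mu P Y := by
  have e : H Y ^ 2 / (5 * P) = ∑ v ∈ V Y, (1 / v.1 : ℝ) * (1 / v.2) / (5 * P) := by
    rw [← Finset.sum_div, V, Finset.sum_product, sq, H, Finset.sum_mul_sum]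
  rw [e, mu]
  refine Finset.sum_le_sum fun v hv => ?_
  obtain ⟨⟨a1, a2⟩, ⟨a3, a4⟩⟩ := mem_V hv
  have h1 := M_pos hP a1 a3
  have h2 : (0 : ℝ) < M P v.1 v.2 := by exact_mod_cast (by omega : 0 < M P v.1 v.2)
  have h3 : (M P v.1 v.2 : ℝ) ≤ 5 * (P * v.1 * v.2) := by exact_mod_cast M_upper hP a1 a3
  have e1 : (0 : ℝ) < v.1 := by exact_mod_cast a1
  have e2 : (0 : ℝ) < v.2 := by exact_mod_cast a3
  have e3 : (0 : ℝ) < P := by exact_mod_cast hP
  have e4 : (1 / v.1 : ℝ) * (1 / v.2) / (5 * P) = 1 / (5 * (P * v.1 * v.2)) := by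
    field_simp
  rw [e4]
  exact one_div_le_one_div_of_le h2 h3

lemma hits_card (P t Z Y l : ℕ) :
    ((hits P t Z Y l).card : ℝ) = ∑ v ∈ V Y, if Hit P t Z v.1 v.2 l then (1 : ℝ) else 0 := by
  rw [hits, Finset.card_filter]
  push_cast
  rfl

lemma first_moment {P t Z Y : ℕ} (X : ℕ) (hP : 0 < P) (ht : t ∣ P) :
    X * mu P Y - (Y : ℝ) ^ 2 ≤ ∑ l ∈ Finset.Ioc 0 X, ((hits P t Z Y l).card : ℝ) := by
  have e : ∑ l ∈ Finset.Ioc 0 X, ((hits P t Z Y l).card : ℝ) =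
      ∑ v ∈ V Y, (((Finset.Ioc 0 X).filter (fun l => Hit P t Z v.1 v.2 l)).card : ℝ) := by
    simp_rw [hits_card]
    rw [Finset.sum_comm]
    refine Finset.sum_congr rfl fun v _ => ?_
    rw [Finset.card_filter]
    push_cast
    rfl
  rw [e, mu, ← card_V, ← nsmul_one ((V Y).card), ← Finset.sum_const, Finset.mul_sum,
    ← Finset.sum_sub_distrib]
  refine Finset.sum_le_sum fun v hv => ?_
  obtain ⟨⟨a1, a2⟩, ⟨a3, a4⟩⟩ := mem_V hv
  have := (abs_le.mp (one_count (Z := Z) X hP ht a1 a3)).1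
  rw [mul_one_div]
  linarith

/-- the total correlation -/
noncomputable def C (P Y : ℕ) : ℝ := ∑ v ∈ V Y, ∑ v' ∈ V Y, E P v.1 v.2 v'.1 v'.2

lemma second_moment {P t Z Y : ℕ} (X : ℕ) (hP : 0 < P) (ht : t ∣ P) :
    ∑ l ∈ Finset.Ioc 0 X, ((hits P t Z Y l).card : ℝ) ^ 2 ≤
      (Y : ℝ) ^ 4 + X * mu P Y ^ 2 + X * C P Y := by
  have e : ∑ l ∈ Finset.Ioc 0 X, ((hits P t Z Y l).card : ℝ) ^ 2 =
      ∑ v ∈ V Y, ∑ v' ∈ V Y, (((Finset.Ioc 0 X).filter
        (fun l => Hit P t Z v.1 v.2 l ∧ Hit P t Z v'.1 v'.2 l)).card : ℝ) := by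
    simp_rw [hits_card, sq, Finset.sum_mul_sum]
    rw [Finset.sum_comm]
    refine Finset.sum_congr rfl fun v _ => ?_
    rw [Finset.sum_comm]
    refine Finset.sum_congr rfl fun v' _ => ?_
    rw [Finset.card_filter]
    push_cast
    refine Finset.sum_congr rfl fun l _ => ?_
    by_cases h1 : Hit P t Z v.1 v.2 l <;> by_cases h2 : Hit P t Z v'.1 v'.2 l <;> simp [h1, h2]
  rw [e]
  have hbd : ∀ v ∈ V Y, ∀ v' ∈ V Y, (((Finset.Ioc 0 X).filter
        (fun l => Hit P t Z v.1 v.2 l ∧ Hit P t Z v'.1 v'.2 l)).card : ℝ) ≤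
      1 + X * ((1 / M P v.1 v.2) * (1 / M P v'.1 v'.2)) + X * E P v.1 v.2 v'.1 v'.2 := by
    intro v hv v' hv'
    obtain ⟨⟨a1, a2⟩, ⟨a3, a4⟩⟩ := mem_V hv
    obtain ⟨⟨b1, b2⟩, ⟨b3, b4⟩⟩ := mem_V hv'
    exact two_count X hP ht a1 a3 b1 b3
  refine (Finset.sum_le_sum fun v hv => Finset.sum_le_sum fun v' hv' => hbd v hv v' hv').trans ?_
  apply le_of_eq
  simp_rw [Finset.sum_add_distrib, ← Finset.mul_sum]
  have e1 : ∑ v ∈ V Y, ∑ v' ∈ V Y, (1 : ℝ) = (Y : ℝ) ^ 4 := by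
    rw [Finset.sum_const, Finset.sum_const, nsmul_eq_mul, nsmul_eq_mul, card_V]
    ring
  have e2 : ∑ v ∈ V Y, (1 / M P v.1 v.2 : ℝ) * ∑ v' ∈ V Y, (1 / M P v'.1 v'.2 : ℝ) =
      mu P Y ^ 2 := by
    rw [← Finset.sum_mul, sq, mu]
  rw [e1, e2, C]

lemma variance {P t Z Y : ℕ} (X : ℕ) (hP : 0 < P) (ht : t ∣ P) :
    ∑ l ∈ Finset.Ioc 0 X, (((hits P t Z Y l).card : ℝ) - mu P Y) ^ 2 ≤
      X * C P Y + 3 * (Y : ℝ) ^ 4 := by
  have e : ∑ l ∈ Finset.Ioc 0 X, (((hits P t Z Y l).card : ℝ) - mu P Y) ^ 2 =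
      ∑ l ∈ Finset.Ioc 0 X, ((hits P t Z Y l).card : ℝ) ^ 2 -
        2 * mu P Y * ∑ l ∈ Finset.Ioc 0 X, ((hits P t Z Y l).card : ℝ) + X * mu P Y ^ 2 := by
    have : ∀ l ∈ Finset.Ioc 0 X, (((hits P t Z Y l).card : ℝ) - mu P Y) ^ 2 =
      ((hits P t Z Y l).card : ℝ) ^ 2 - 2 * mu P Y * ((hits P t Z Y l).card : ℝ) + mu P Y ^ 2 :=
      fun l _ => by ring
    rw [Finset.sum_congr rfl this, Finset.sum_add_distrib, Finset.sum_sub_distrib,
      ← Finset.mul_sum, Finset.sum_const, nsmul_eq_mul, Nat.card_Ioc, Nat.sub_zero]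
  rw [e]
  have h1 := first_moment (Z := Z) (Y := Y) X hP ht
  have h2 := second_moment (Z := Z) (Y := Y) X hP ht
  have hT := mu_nonneg P Y
  have hTW := mu_le (Y := Y) hP
  have h3 : 2 * mu P Y * (X * mu P Y - (Y : ℝ) ^ 2) ≤
      2 * mu P Y * ∑ l ∈ Finset.Ioc 0 X, ((hits P t Z Y l).card : ℝ) := by gcongr
  have h4 : mu P Y * (Y : ℝ) ^ 2 ≤ (Y : ℝ) ^ 2 * (Y : ℝ) ^ 2 := by gcongr
  nlinarith

lemma chebyshev {P t Z Y : ℕ} (X : ℕ) (hP : 0 < P) (ht : t ∣ P) :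
    (((Finset.Ioc 0 X).filter (fun l => ((hits P t Z Y l).card : ℝ) < mu P Y / 2)).card : ℝ) *
      (mu P Y ^ 2 / 4) ≤ X * C P Y + 3 * (Y : ℝ) ^ 4 := by
  refine le_trans ?_ (variance (Z := Z) X hP ht)
  have hT := mu_nonneg P Y
  calc (((Finset.Ioc 0 X).filter (fun l => ((hits P t Z Y l).card : ℝ) < mu P Y / 2)).card : ℝ) *
      (mu P Y ^ 2 / 4)
      = ∑ l ∈ (Finset.Ioc 0 X).filter (fun l => ((hits P t Z Y l).card : ℝ) < mu P Y / 2),
          (mu P Y ^ 2 / 4) := by rw [Finset.sum_const, nsmul_eq_mul]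
    _ ≤ ∑ l ∈ (Finset.Ioc 0 X).filter (fun l => ((hits P t Z Y l).card : ℝ) < mu P Y / 2),
          (((hits P t Z Y l).card : ℝ) - mu P Y) ^ 2 := by
        refine Finset.sum_le_sum fun l hl => ?_
        have h1 := (Finset.mem_filter.mp hl).2
        nlinarith
    _ ≤ _ := Finset.sum_le_sum_of_subset_of_nonneg (Finset.filter_subset _ _)
        fun _ _ _ => sq_nonneg _

/-- the number of `l` in `(Z, Z + X]` with fewer than `k` representations -/
noncomputable def few (k : ℝ) (t Z X : ℕ) : ℕ :=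
  Set.ncard {l : ℕ | Z < l ∧ l ≤ Z + X ∧ ¬ AtLeast k ((t : ℤ) * l)}

lemma few_le_card {P t Z Y : ℕ} (k : ℝ) (X : ℕ) (hP : 0 < P) (hk : k ≤ mu P Y / 2) :
    few k t Z X ≤
      ((Finset.Ioc 0 X).filter (fun l => ((hits P t Z Y l).card : ℝ) < mu P Y / 2)).card := by
  unfold few
  rw [← Finset.card_image_of_injective _ (add_left_injective Z), ← Set.ncard_coe_finset]
  refine Set.ncard_le_ncard ?_ (Finset.finite_toSet _)
  intro l hl
  simp only [Finset.coe_image, Set.mem_image, Finset.coe_filter, Finset.mem_Ioc]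
  have hl1 : Z < l := hl.1
  have hl2 : l ≤ Z + X := hl.2.1
  refine ⟨l - Z, ⟨⟨by omega, by omega⟩, ?_⟩, by omega⟩
  by_contra hge
  push Not at hge
  refine hl.2.2 ?_
  have h9 := (atLeast_of_hits (t := t) (Z := Z) (Y := Y) (l := l - Z) hP).mono (hk.trans hge)
  have e9 : (((l - Z : ℕ) : ℤ) + Z) = l := by
    rw [Nat.cast_sub hl1.le]; ring
  rwa [e9] at h9

/-! ### Harmonic sums and the main estimate -/

lemma H_eq (N : ℕ) : H N = (harmonic N : ℝ) := by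
  rw [H, harmonic_eq_sum_Icc]
  push_cast
  simp only [one_div]

lemma log_le_H (N : ℕ) : Real.log ((N : ℝ) + 1) ≤ H N := by
  rw [H_eq]
  have := log_add_one_le_harmonic N
  push_cast at this
  exact this

lemma H_le (N : ℕ) : H N ≤ 1 + Real.log N := by
  rw [H_eq]
  exact harmonic_le_one_add_log N

lemma one_le_H {Y : ℕ} (hY : 1 ≤ Y) : 1 ≤ H Y := by
  have h1 := Finset.single_le_sum (f := fun j : ℕ => (1 / j : ℝ)) (s := Icc 1 Y)
    (fun _ _ => by positivity) (Finset.mem_Icc.mpr ⟨le_rfl, hY⟩ : 1 ∈ Icc 1 Y)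
  simpa [H] using h1

/-- a constant -/
noncomputable def cP (P : ℕ) : ℝ := 1 + Real.log (5 * P)

lemma cP_nonneg {P : ℕ} (hP : 0 < P) : 0 ≤ cP P := by
  have h1 : (1 : ℝ) ≤ P := by exact_mod_cast hP
  have : 0 ≤ Real.log (5 * P) := Real.log_nonneg (by linarith)
  unfold cP
  linarith

lemma HN_le {P Y : ℕ} (hP : 0 < P) (hY : 1 ≤ Y) : H (5 * P * Y * Y) ≤ cP P + 2 * H Y := by
  have h1 := H_le (5 * P * Y * Y)
  have hYr : (1 : ℝ) ≤ Y := by exact_mod_cast hY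
  have hPr : (1 : ℝ) ≤ P := by exact_mod_cast hP
  push_cast at h1
  have e : (5 * P * Y * Y : ℝ) = (5 * P) * (Y * Y) := by ring
  have e2 : Real.log ((5 * P : ℝ) * (Y * Y)) = Real.log (5 * P) + (Real.log Y + Real.log Y) := by
    rw [Real.log_mul (by positivity) (by positivity),
      Real.log_mul (by positivity) (by positivity) (x := (Y : ℝ)) (y := (Y : ℝ))]
  rw [e, e2] at h1
  have h2 : Real.log Y ≤ H Y :=
    (Real.log_le_log (by linarith) (by linarith)).trans (log_le_H Y)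
  unfold cP
  linarith

lemma C_le {P w Y : ℕ} (hP : 0 < P) (h5 : 5 ∣ P) (hw1 : 1 ≤ w) (hY : 1 ≤ Y)
    (hw : ∀ q : ℕ, q.Prime → q ≤ w → q ∣ P) :
    C P Y ≤ (6 + 9 * P + 2 * cP P) * H Y ^ 3 + 8 / 9 * H Y ^ 4 / ((P : ℝ) ^ 2 * w) := by
  have hN : ∀ y ∈ Icc 1 Y, ∀ k ∈ Icc 1 Y, M P y k ≤ 5 * P * Y * Y := by
    intro y hy k hk
    rw [Finset.mem_Icc] at hy hk
    have h1 := M_upper hP hy.1 hk.1
    calc M P y k ≤ 5 * (P * y * k) := h1
      _ = 5 * P * y * k := by ring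
      _ ≤ 5 * P * Y * Y := by
        have := hy.2
        have := hk.2
        gcongr
  have h1 := corr_sum hP h5 hw1 hw hN
  have h2 := HN_le hP hY
  have h3 := one_le_H hY
  have hc := cP_nonneg hP
  set h := H Y with hh
  set g := H (5 * P * Y * Y) with hg
  have hPr : (1 : ℝ) ≤ P := by exact_mod_cast hP
  have hwr : (1 : ℝ) ≤ w := by exact_mod_cast hw1
  have hg0 : 0 ≤ g := H_nonneg _
  set q : ℝ := 1 / (P : ℝ) ^ 2 with hq
  have hq0 : 0 ≤ q := by positivity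
  have hq1 : q ≤ 1 := by
    rw [hq, div_le_one (by positivity)]
    exact one_le_pow₀ hPr
  have h4 : h * h + 2 * ((h / (9 * P ^ 2)) * (2 * (20 * P * h + 4 * (h * g)) +
        2 * (2 * (h * h) + 2 * (h * h * h / w)))) =
      h * h + q * (2 * h / 9 * (40 * P * h + 8 * (h * g) + 4 * (h * h))) +
        8 / 9 * h ^ 4 / ((P : ℝ) ^ 2 * w) := by
    rw [hq]
    field_simp
    ring
  have h5' : 2 * h / 9 * (40 * P * h + 8 * (h * g) + 4 * (h * h)) ≤
      2 * h / 9 * (40 * P * h + 8 * (h * (cP P + 2 * h)) + 4 * (h * h)) := by gcongr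
  have h6 : 0 ≤ 2 * h / 9 * (40 * P * h + 8 * (h * g) + 4 * (h * h)) := by positivity
  have h7 : q * (2 * h / 9 * (40 * P * h + 8 * (h * g) + 4 * (h * h))) ≤
      2 * h / 9 * (40 * P * h + 8 * (h * (cP P + 2 * h)) + 4 * (h * h)) :=
    (mul_le_of_le_one_left h6 hq1).trans h5'
  have h8 : h ^ 2 ≤ h ^ 3 := pow_le_pow_right₀ h3 (by norm_num)
  have h9 : h * h + 2 * h / 9 * (40 * P * h + 8 * (h * (cP P + 2 * h)) + 4 * (h * h)) ≤
      (6 + 9 * P + 2 * cP P) * h ^ 3 := by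
    have e1 : h * h + 2 * h / 9 * (40 * P * h + 8 * (h * (cP P + 2 * h)) + 4 * (h * h)) =
        h ^ 2 * (1 + 80 / 9 * P + 16 / 9 * cP P) + 40 / 9 * h ^ 3 := by ring
    have e2 : h ^ 2 * (1 + 80 / 9 * P + 16 / 9 * cP P) ≤
        h ^ 3 * (1 + 80 / 9 * P + 16 / 9 * cP P) := by gcongr
    have e3 : 0 ≤ h ^ 3 := by positivity
    rw [e1]
    nlinarith [mul_nonneg e3 hc, mul_nonneg e3 (by linarith : (0 : ℝ) ≤ P)]
  unfold C
  rw [h4] at h1
  linarith

/-- the main estimate -/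
lemma main_bound (t w : ℕ) (ht : 0 < t) (hw1 : 1 ≤ w) : ∃ c K : ℝ, 0 < c ∧ 0 < K ∧
    ∀ Z X Y : ℕ, 1 ≤ Y → (few (c * H Y ^ 2) t Z X : ℝ) ≤
      X * (K / H Y + 89 / w) + K * (Y : ℝ) ^ 4 / H Y := by
  set P : ℕ := 5 * t * w.factorial with hPdef
  have hP : 0 < P := by
    have := Nat.factorial_pos w
    positivity
  have h5 : 5 ∣ P := ⟨t * w.factorial, by rw [hPdef]; ring⟩
  have htP : t ∣ P := ⟨5 * w.factorial, by rw [hPdef]; ring⟩
  have hw : ∀ q : ℕ, q.Prime → q ≤ w → q ∣ P := fun q hq hqw =>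
    (hq.dvd_factorial.mpr hqw).mul_left _
  have hPr : (1 : ℝ) ≤ P := by exact_mod_cast hP
  have hwr : (1 : ℝ) ≤ w := by exact_mod_cast hw1
  have hc := cP_nonneg hP
  refine ⟨1 / (10 * P), 100 * (P : ℝ) ^ 2 * (6 + 9 * P + 2 * cP P) + 300 * (P : ℝ) ^ 2,
    by positivity, by positivity, fun Z X Y hY => ?_⟩
  have hh := one_le_H hY
  have hC := C_le hP h5 hw1 hY hw
  have hmu := mu_lower (Y := Y) hP
  have hch := chebyshev (Z := Z) (Y := Y) X hP htP
  set h := H Y with hhd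
  have hk : 1 / (10 * P) * h ^ 2 ≤ mu P Y / 2 := by
    have e : 1 / (10 * P) * h ^ 2 = (h ^ 2 / (5 * P)) / 2 := by
      field_simp
      ring
    rw [e]
    linarith
  have hfew := few_le_card (t := t) (Z := Z) (Y := Y) (1 / (10 * P) * h ^ 2) X hP hk
  set B := ((Finset.Ioc 0 X).filter (fun l => ((hits P t Z Y l).card : ℝ) < mu P Y / 2)).card
  have hfew' : (few (1 / (10 * P) * h ^ 2) t Z X : ℝ) ≤ B := by exact_mod_cast hfew
  refine hfew'.trans ?_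
  have hX0 : (0 : ℝ) ≤ X := Nat.cast_nonneg X
  have hY0 : (0 : ℝ) ≤ Y := Nat.cast_nonneg Y
  have hB0 : (0 : ℝ) ≤ B := Nat.cast_nonneg B
  have h1 : (h ^ 2 / (5 * P)) ^ 2 ≤ mu P Y ^ 2 := by gcongr
  have h2 : (B : ℝ) * ((h ^ 2 / (5 * P)) ^ 2 / 4) ≤
      X * ((6 + 9 * P + 2 * cP P) * h ^ 3 + 8 / 9 * h ^ 4 / ((P : ℝ) ^ 2 * w)) +
        3 * (Y : ℝ) ^ 4 := by
    calc (B : ℝ) * ((h ^ 2 / (5 * P)) ^ 2 / 4) ≤ (B : ℝ) * (mu P Y ^ 2 / 4) := by gcongr
      _ ≤ X * C P Y + 3 * (Y : ℝ) ^ 4 := hch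
      _ ≤ _ := by gcongr
  have h3 : (B : ℝ) ≤ (X * ((6 + 9 * P + 2 * cP P) * h ^ 3 +
      8 / 9 * h ^ 4 / ((P : ℝ) ^ 2 * w)) + 3 * (Y : ℝ) ^ 4) / ((h ^ 2 / (5 * P)) ^ 2 / 4) := by
    rw [le_div_iff₀ (by positivity)]
    exact h2
  refine h3.trans ?_
  have e : (X * ((6 + 9 * P + 2 * cP P) * h ^ 3 +
      8 / 9 * h ^ 4 / ((P : ℝ) ^ 2 * w)) + 3 * (Y : ℝ) ^ 4) / ((h ^ 2 / (5 * P)) ^ 2 / 4) =
      X * (100 * (P : ℝ) ^ 2 * (6 + 9 * P + 2 * cP P) / h + 800 / 9 / w) +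
        300 * (P : ℝ) ^ 2 * (Y : ℝ) ^ 4 / h ^ 4 := by
    field_simp
    ring
  rw [e]
  have h4 : 100 * (P : ℝ) ^ 2 * (6 + 9 * P + 2 * cP P) / h ≤
      (100 * (P : ℝ) ^ 2 * (6 + 9 * P + 2 * cP P) + 300 * (P : ℝ) ^ 2) / h := by
    gcongr
    have : 0 ≤ 300 * (P : ℝ) ^ 2 := by positivity
    linarith
  have h5' : (800 / 9 / w : ℝ) ≤ 89 / w := by
    gcongr
    norm_num
  have h6 : 300 * (P : ℝ) ^ 2 * (Y : ℝ) ^ 4 / h ^ 4 ≤
      (100 * (P : ℝ) ^ 2 * (6 + 9 * P + 2 * cP P) + 300 * (P : ℝ) ^ 2) * (Y : ℝ) ^ 4 / h := by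
    have h7 : h ≤ h ^ 4 := by
      calc h = h ^ 1 := (pow_one h).symm
        _ ≤ h ^ 4 := pow_le_pow_right₀ hh (by norm_num)
    have h8 : 300 * (P : ℝ) ^ 2 ≤
        100 * (P : ℝ) ^ 2 * (6 + 9 * P + 2 * cP P) + 300 * (P : ℝ) ^ 2 := by
      have : 0 ≤ 100 * (P : ℝ) ^ 2 * (6 + 9 * P + 2 * cP P) := by positivity
      linarith
    gcongr
  gcongr

/-- The lower bound.  For every `t ≥ 1` (in particular `t = 252`) and every
`ε > 0` there are `c > 0` and `X₀` such that for all `X ≥ X₀` and all `Z` at most `ε X` of the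
integers `l` in `(Z, Z + X]` are such that `t * l` has fewer than `c (log X)²` representations
`p₁ x y z` with positive integers `x, y, z`. -/
lemma lower : ∀ t : ℕ, 0 < t → ∀ ε : ℝ, 0 < ε → ∃ c : ℝ, 0 < c ∧ ∃ X₀ : ℕ, ∀ Z X : ℕ, X₀ ≤ X →
    (Set.ncard {l : ℕ | Z < l ∧ l ≤ Z + X ∧
      ¬ AtLeast (c * Real.log X ^ 2) ((t : ℤ) * l)} : ℝ) ≤ ε * X := by
  intro t ht ε hε
  set w : ℕ := ⌈178 / ε⌉₊ + 1 with hw
  have hw1 : 1 ≤ w := by omega
  have hwr : 178 / ε ≤ w := by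
    rw [hw]
    push_cast
    have := Nat.le_ceil (178 / ε)
    linarith
  have hwr1 : (1 : ℝ) ≤ w := by exact_mod_cast hw1
  have h89 : (89 / w : ℝ) ≤ ε / 2 := by
    rw [div_le_iff₀ (by linarith)]
    rw [div_le_iff₀ hε] at hwr
    nlinarith
  obtain ⟨c, K, hc, hK, hmain⟩ := main_bound t w ht hw1
  refine ⟨c / 64, by positivity, ⌈Real.exp (32 * K / ε)⌉₊ + 2, fun Z X hX => ?_⟩
  have hXr : Real.exp (32 * K / ε) ≤ X := by
    have h1 := Nat.le_ceil (Real.exp (32 * K / ε))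
    have h2 : ((⌈Real.exp (32 * K / ε)⌉₊ + 2 : ℕ) : ℝ) ≤ X := by exact_mod_cast hX
    push_cast at h2
    linarith
  have hX1 : (1 : ℝ) < X := by exact_mod_cast (by omega : 1 < X)
  have hX0 : (0 : ℝ) < X := by linarith
  set L := Real.log X with hL
  have hL0 : 0 < L := Real.log_pos hX1
  have hLK : 32 * K / ε ≤ L := by
    rw [hL, Real.le_log_iff_exp_le hX0]
    exact hXr
  set Y : ℕ := ⌊Real.exp (L / 8)⌋₊ with hY
  have hY1 : 1 ≤ Y := by
    rw [hY]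
    apply Nat.le_floor
    have := Real.one_le_exp (by positivity : (0 : ℝ) ≤ L / 8)
    simpa using this
  have hYle : (Y : ℝ) ≤ Real.exp (L / 8) := Nat.floor_le (Real.exp_pos _).le
  have hYlt : Real.exp (L / 8) < Y + 1 := Nat.lt_floor_add_one _
  have hHL : L / 8 ≤ H Y := by
    refine le_trans ?_ (log_le_H Y)
    rw [Real.le_log_iff_exp_le (by positivity)]
    exact hYlt.le
  have hY4 : (Y : ℝ) ^ 4 ≤ X := by
    calc (Y : ℝ) ^ 4 ≤ Real.exp (L / 8) ^ 4 := by gcongr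
      _ = Real.exp (L / 2) := by rw [← Real.exp_nat_mul]; congr 1; push_cast; ring
      _ ≤ Real.exp L := Real.exp_le_exp.mpr (by linarith)
      _ = X := Real.exp_log hX0
  have h1 := hmain Z X Y hY1
  have hH1 := one_le_H hY1
  have h2 : few (c / 64 * L ^ 2) t Z X ≤ few (c * H Y ^ 2) t Z X := by
    unfold few
    refine Set.ncard_le_ncard ?_ ?_
    · intro l hl
      refine ⟨hl.1, hl.2.1, fun h => hl.2.2 (h.mono ?_)⟩
      have h3 : (L / 8) ^ 2 ≤ H Y ^ 2 := by gcongr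
      nlinarith
    · refine Set.Finite.subset (Finset.finite_toSet (Finset.Ioc Z (Z + X))) ?_
      intro l hl
      simp only [Finset.coe_Ioc, Set.mem_Ioc]
      exact ⟨hl.1, hl.2.1⟩
  change (few (c / 64 * L ^ 2) t Z X : ℝ) ≤ _
  have h3 : (few (c / 64 * L ^ 2) t Z X : ℝ) ≤ few (c * H Y ^ 2) t Z X := by exact_mod_cast h2
  refine (h3.trans h1).trans ?_
  have h4 : K / H Y ≤ ε / 4 := by
    rw [div_le_iff₀ (by linarith)]
    rw [div_le_iff₀ hε] at hLK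
    nlinarith
  have h5 : K * (Y : ℝ) ^ 4 / H Y ≤ X * (K / H Y) := by
    rw [mul_div_assoc', mul_comm (X : ℝ) K]
    gcongr
  have h6 : X * (K / H Y + 89 / w) ≤ X * (ε / 4 + ε / 2) := by gcongr
  have h7 : X * (K / H Y) ≤ X * (ε / 4) := by gcongr
  linarith

/-! ### The upper bound -/

/-- triples of natural numbers with product at most `N` -/
def T3 (N : ℕ) : Finset (ℕ × ℕ × ℕ) :=
  (Icc 1 N ×ˢ (Icc 1 N ×ˢ Icc 1 N)).filter (fun u => u.1 * (u.2.1 * u.2.2) ≤ N)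

lemma card_T3 (N : ℕ) : ((T3 N).card : ℝ) ≤ N * H N ^ 2 := by
  unfold T3
  rw [Finset.card_filter, Finset.sum_product]
  push_cast
  have h1 : ∀ x ∈ Icc 1 N, ∑ u ∈ Icc 1 N ×ˢ Icc 1 N,
      (if x * (u.1 * u.2) ≤ N then (1 : ℝ) else 0) ≤ N * (1 / x) * H N := by
    intro x hx
    have hx1 := (Finset.mem_Icc.mp hx).1
    have hxr : (0 : ℝ) < x := by exact_mod_cast hx1
    rw [Finset.sum_product]
    have h2 : ∀ y ∈ Icc 1 N, ∑ z ∈ Icc 1 N, (if x * (y * z) ≤ N then (1 : ℝ) else 0) ≤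
        N * (1 / x) * (1 / y) := by
      intro y hy
      have hy1 := (Finset.mem_Icc.mp hy).1
      have hyr : (0 : ℝ) < y := by exact_mod_cast hy1
      rw [← Finset.sum_filter, Finset.sum_const, nsmul_eq_mul, mul_one]
      have h3 : ((Icc 1 N).filter (fun z => x * (y * z) ≤ N)).card ≤ N / (x * y) := by
        calc _ ≤ (Icc 1 (N / (x * y))).card := by
              refine Finset.card_le_card fun z hz => ?_
              obtain ⟨h4, h5⟩ := Finset.mem_filter.mp hz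
              rw [Finset.mem_Icc] at h4 ⊢
              refine ⟨h4.1, ?_⟩
              rw [Nat.le_div_iff_mul_le (Nat.mul_pos hx1 hy1)]
              calc z * (x * y) = x * (y * z) := by ring
                _ ≤ N := h5
          _ = N / (x * y) := by simp
      have h6 : ((N / (x * y) : ℕ) : ℝ) ≤ (N : ℝ) / ((x * y : ℕ) : ℝ) := Nat.cast_div_le
      have h7 : (((Icc 1 N).filter (fun z => x * (y * z) ≤ N)).card : ℝ) ≤
          ((N / (x * y) : ℕ) : ℝ) := by exact_mod_cast h3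
      refine (h7.trans h6).trans (le_of_eq ?_)
      push_cast
      field_simp
    refine (Finset.sum_le_sum h2).trans (le_of_eq ?_)
    rw [← Finset.mul_sum]
    rfl
  refine (Finset.sum_le_sum h1).trans (le_of_eq ?_)
  rw [← Finset.sum_mul, ← Finset.mul_sum]
  have : ∑ x ∈ Icc 1 N, (1 / x : ℝ) = H N := rfl
  rw [this]
  ring

lemma product_le {x y z n : ℤ} (hx : 0 < x) (hy : 0 < y) (hz : 0 < z) (h : p₁ x y z = n) :
    x * (y * z) ≤ n := by
  unfold p₁ at h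
  have h1 : 0 ≤ x * z * (y - 1) := mul_nonneg (by positivity) (by omega)
  have h2 : 0 ≤ y * z * (x - 1) := mul_nonneg (by positivity) (by omega)
  have h3 : 0 ≤ x * (y * z - 1) := mul_nonneg hx.le (by nlinarith)
  have h4 : 0 < x * (y * z) := by positivity
  nlinarith

lemma upper_count (t X : ℕ) (k : ℝ) :
    k * (Set.ncard {l : ℕ | 0 < l ∧ l ≤ X ∧ AtLeast k ((t : ℤ) * l)} : ℝ) ≤
      ((t * X : ℕ) : ℝ) * H (t * X) ^ 2 := by
  classical
  set N := t * X with hN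
  refine le_trans ?_ (card_T3 N)
  rcases Nat.eq_zero_or_pos t with ht0 | ht
  · -- `t = 0`: there are no representations of `0`
    have hk : k ≤ 0 ∨ {l : ℕ | 0 < l ∧ l ≤ X ∧ AtLeast k ((t : ℤ) * l)} = ∅ := by
      by_contra hcon
      push Not at hcon
      obtain ⟨hk, hne⟩ := hcon
      obtain ⟨l, hl1, hl2, S, hS1, hS2⟩ := hne
      have hS : S.Nonempty := by
        rw [← Finset.card_pos]
        have : (0 : ℝ) < S.card := hk.trans_le hS1
        exact_mod_cast this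
      obtain ⟨v, hv⟩ := hS
      obtain ⟨h1, h2, h3, h4⟩ := hS2 v hv
      have h5 := product_le h1 h2 h3 h4
      have h6 : 0 < v.1 * (v.2.1 * v.2.2) := by positivity
      rw [ht0] at h5
      push_cast at h5
      linarith
    rcases hk with hk | hk
    · have : k * (Set.ncard {l : ℕ | 0 < l ∧ l ≤ X ∧ AtLeast k ((t : ℤ) * l)} : ℝ) ≤ 0 :=
        mul_nonpos_of_nonpos_of_nonneg hk (Nat.cast_nonneg _)
      exact this.trans (Nat.cast_nonneg _)
    · rw [hk, Set.ncard_empty, Nat.cast_zero, mul_zero]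
      exact Nat.cast_nonneg _
  · set B : Finset ℕ := (Finset.Icc 1 X).filter (fun l => AtLeast k ((t : ℤ) * l)) with hB
    have hBS : {l : ℕ | 0 < l ∧ l ≤ X ∧ AtLeast k ((t : ℤ) * l)} = (B : Set ℕ) := by
      ext l
      simp only [Set.mem_ofPred_eq, hB, Finset.coe_filter, Finset.mem_Icc]
      constructor
      · rintro ⟨h1, h2, h3⟩
        exact ⟨⟨h1, h2⟩, h3⟩
      · rintro ⟨⟨h1, h2⟩, h3⟩
        exact ⟨h1, h2, h3⟩
    rw [hBS, Set.ncard_coe_finset]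
    have hex : ∀ l ∈ B, ∃ S : Finset (ℤ × ℤ × ℤ), k ≤ (S.card : ℝ) ∧
        ∀ v ∈ S, 0 < v.1 ∧ 0 < v.2.1 ∧ 0 < v.2.2 ∧ p₁ v.1 v.2.1 v.2.2 = (t : ℤ) * l :=
      fun l hl => (Finset.mem_filter.mp hl).2
    choose! S hS1 hS2 using hex
    have h1 : k * (B.card : ℝ) ≤ ∑ l ∈ B, ((S l).card : ℝ) := by
      calc k * (B.card : ℝ) = ∑ l ∈ B, k := by rw [Finset.sum_const, nsmul_eq_mul, mul_comm]
        _ ≤ _ := Finset.sum_le_sum hS1
    have hdis : ∀ l ∈ B, ∀ l' ∈ B, l ≠ l' → Disjoint (S l) (S l') := by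
      intro l hl l' hl' hne
      rw [Finset.disjoint_left]
      intro v hv hv'
      have e1 := (hS2 l hl v hv).2.2.2
      have e2 := (hS2 l' hl' v hv').2.2.2
      rw [e1] at e2
      have htz : (t : ℤ) ≠ 0 := by exact_mod_cast ht.ne'
      have e3 : (l : ℤ) = l' := mul_left_cancel₀ htz e2
      exact hne (by exact_mod_cast e3)
    have h2 : (B.biUnion S).card = ∑ l ∈ B, (S l).card := Finset.card_biUnion hdis
    have h3 : B.biUnion S ⊆
        (T3 N).image (fun u => ((u.1 : ℤ), ((u.2.1 : ℤ), (u.2.2 : ℤ)))) := by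
      intro v hv
      obtain ⟨l, hl, hvl⟩ := Finset.mem_biUnion.mp hv
      obtain ⟨a1, a2, a3, a4⟩ := hS2 l hl v hvl
      have hlX : l ≤ X := (Finset.mem_Icc.mp (Finset.mem_filter.mp hl).1).2
      have a5 := product_le a1 a2 a3 a4
      have a6 : (t : ℤ) * l ≤ N := by
        rw [hN]
        push_cast
        have : (l : ℤ) ≤ X := by exact_mod_cast hlX
        gcongr
      rw [Finset.mem_image]
      obtain ⟨x, hx⟩ := Int.eq_ofNat_of_zero_le a1.le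
      obtain ⟨y, hy⟩ := Int.eq_ofNat_of_zero_le a2.le
      obtain ⟨z, hz⟩ := Int.eq_ofNat_of_zero_le a3.le
      refine ⟨(x, (y, z)), ?_, ?_⟩
      · rw [hx] at a1
        rw [hy] at a2
        rw [hz] at a3
        have b1 : 0 < x := by exact_mod_cast a1
        have b2 : 0 < y := by exact_mod_cast a2
        have b3 : 0 < z := by exact_mod_cast a3
        have b4 : x * (y * z) ≤ N := by
          have := a5.trans a6
          rw [hx, hy, hz] at this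
          exact_mod_cast this
        have b5 : x ≤ N := le_trans (Nat.le_mul_of_pos_right x (Nat.mul_pos b2 b3)) b4
        have b6 : y * z ≤ N := le_trans (Nat.le_mul_of_pos_left (y * z) b1) b4
        have b7 : y ≤ N := le_trans (Nat.le_mul_of_pos_right y b3) b6
        have b8 : z ≤ N := le_trans (Nat.le_mul_of_pos_left z b2) b6
        simp only [T3, Finset.mem_filter, Finset.mem_product, Finset.mem_Icc]
        exact ⟨⟨⟨b1, b5⟩, ⟨b2, b7⟩, ⟨b3, b8⟩⟩, b4⟩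
      · simp only
        rw [← hx, ← hy, ← hz]
    have h4 : (B.biUnion S).card ≤ (T3 N).card :=
      (Finset.card_le_card h3).trans Finset.card_image_le
    rw [h2] at h4
    have h5 : ∑ l ∈ B, ((S l).card : ℝ) ≤ (T3 N).card := by exact_mod_cast h4
    exact h1.trans h5

/-- The upper bound. -/
lemma upper (t : ℕ) (ht : 0 < t) (ε : ℝ) (hε : 0 < ε) : ∃ C : ℝ, 0 < C ∧ ∀ X : ℕ, 3 ≤ X →
    (Set.ncard {l : ℕ | 0 < l ∧ l ≤ X ∧
      AtLeast (C * Real.log X ^ 2) ((t : ℤ) * l)} : ℝ) ≤ ε * X := by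
  have htr : (1 : ℝ) ≤ t := by exact_mod_cast ht
  have hlt : 0 ≤ Real.log t := Real.log_nonneg htr
  refine ⟨t * (2 + Real.log t) ^ 2 / ε, by positivity, fun X hX => ?_⟩
  have hXr : (3 : ℝ) ≤ X := by exact_mod_cast hX
  have hL1 : 1 ≤ Real.log X := by
    rw [Real.le_log_iff_exp_le (by linarith)]
    have := Real.exp_one_lt_d9
    linarith
  set L := Real.log X with hL
  have h1 := upper_count t X (t * (2 + Real.log t) ^ 2 / ε * L ^ 2)
  have hN : H (t * X) ≤ (2 + Real.log t) * L := by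
    have h2 := H_le (t * X)
    push_cast at h2
    rw [Real.log_mul (by positivity) (by positivity)] at h2
    nlinarith
  have hN0 := H_nonneg (t * X)
  set n := (Set.ncard {l : ℕ | 0 < l ∧ l ≤ X ∧
      AtLeast (t * (2 + Real.log t) ^ 2 / ε * L ^ 2) ((t : ℤ) * l)} : ℝ) with hn
  have h3 : t * (2 + Real.log t) ^ 2 / ε * L ^ 2 * n ≤ (t * X) * ((2 + Real.log t) * L) ^ 2 := by
    refine h1.trans ?_
    push_cast
    gcongr
  have hA : 0 < t * (2 + Real.log t) ^ 2 * L ^ 2 := by positivity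
  have h4 : t * (2 + Real.log t) ^ 2 * L ^ 2 * (n / ε) ≤ t * (2 + Real.log t) ^ 2 * L ^ 2 * X := by
    calc t * (2 + Real.log t) ^ 2 * L ^ 2 * (n / ε) =
        t * (2 + Real.log t) ^ 2 / ε * L ^ 2 * n := by ring
      _ ≤ _ := h3
      _ = _ := by ring
  have h5 : n / ε ≤ X := le_of_mul_le_mul_left h4 hA
  rw [div_le_iff₀ hε] at h5
  linarith

/-- **The order of magnitude of the number of representations.**  For every `t ≥ 1` (in particular
`t = 252`) and every `ε > 0` there are `c, C > 0` and `X₀` such that for all `X ≥ X₀`: for all `Z`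
at most `ε X` of the integers `l` in `(Z, Z + X]` are such that `t * l` has fewer than `c (log X)²`
representations `p₁ x y z` with positive integers `x, y, z`, and at most `ε X` of the integers `l`
in `[1, X]` are such that `t * l` has at least `C (log X)²` such representations. -/
theorem result : ∀ t : ℕ, 0 < t → ∀ ε : ℝ, 0 < ε → ∃ c C : ℝ, 0 < c ∧ 0 < C ∧ ∃ X₀ : ℕ,
    ∀ X : ℕ, X₀ ≤ X →
      (∀ Z : ℕ, (Set.ncard {l : ℕ | Z < l ∧ l ≤ Z + X ∧
        ¬ AtLeast (c * Real.log X ^ 2) ((t : ℤ) * l)} : ℝ) ≤ ε * X) ∧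
      (Set.ncard {l : ℕ | 0 < l ∧ l ≤ X ∧
        AtLeast (C * Real.log X ^ 2) ((t : ℤ) * l)} : ℝ) ≤ ε * X := by
  intro t ht ε hε
  obtain ⟨c, hc, X₀, h1⟩ := lower t ht ε hε
  obtain ⟨C, hC, h2⟩ := upper t ht ε hε
  exact ⟨c, C, hc, hC, max X₀ 3, fun X hX =>
    ⟨fun Z => h1 Z X ((le_max_left _ _).trans hX), h2 X ((le_max_right _ _).trans hX)⟩⟩

end Pool.Agent.Results.MP_9aa437_nt.ExactOrder
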