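import Pool.Agent.Lib.MP_9aa437_nt.Moments
import Pool.Agent.Lib.MP_9aa437_nt.Block2

set_option autoImplicit false

/-!
# Many representations outside very small sets

For every `A` there is `c > 0` such that for every `t ≥ 1` (in particular `t = 252`) all but
`O(X / (log X) ^ A)` of the integers `l` in any interval `(Z, Z + X]` are such that `t * l` has at
least `c log X` representations `z (x (5 y - 1) - y) - x` with positive integers `x, y, z`.
-/

namespace Pool.Agent.Results.MP_9aa437_nt.ManyRepresentations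

open Pool.Agent.Lib.MP_9aa437_nt Pool.Agent.Lib.MP_9aa437_nt.Moments Finset

/-- The polynomial `p₁(x, y, z) = z (x (5 y - 1) - y) - x`. -/
def p₁ (x y z : ℤ) : ℤ := z * (x * (5 * y - 1) - y) - x

/-- `n` has at least `k` representations: there is a finite set of at least `k` triples
`(x, y, z)` of positive integers with `p₁ x y z = n`. -/
def AtLeast (k : ℝ) (n : ℤ) : Prop :=
  ∃ S : Finset (ℤ × ℤ × ℤ), k ≤ (S.card : ℝ) ∧
    ∀ v ∈ S, 0 < v.1 ∧ 0 < v.2.1 ∧ 0 < v.2.2 ∧ p₁ v.1 v.2.1 v.2.2 = n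

/-! ### Good residue classes -/

/-- If `p = m z - 1` with `m = 5 y - 1` divides `m q + y`, then `q = p₁ x y z` for some `x`. -/
lemma triple_of_dvd {y z q : ℤ} (hy : 0 < y) (hz : 0 < z) (hq : 0 ≤ q)
    (h : (5 * y - 1) * z - 1 ∣ (5 * y - 1) * q + y) : ∃ x : ℤ, 0 < x ∧ p₁ x y z = q := by
  set m := 5 * y - 1 with hm
  have hm1 : 4 ≤ m := by omega
  have hp : 0 < m * z - 1 := by nlinarith
  have hco : IsCoprime (m * z - 1) m := ⟨-1, z, by ring⟩
  have h2 : m * z - 1 ∣ m * (q + y * z) := by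
    have : m * (q + y * z) = (m * q + y) + y * (m * z - 1) := by ring
    rw [this]
    exact dvd_add h (Dvd.intro_left _ rfl)
  have h3 : m * z - 1 ∣ q + y * z := hco.dvd_of_dvd_mul_left h2
  obtain ⟨x, hx⟩ := h3
  have hpos : 0 < q + y * z := by positivity
  refine ⟨x, ?_, ?_⟩
  · by_contra hneg
    push Not at hneg
    have : (m * z - 1) * x ≤ 0 := mul_nonpos_of_nonneg_of_nonpos hp.le hneg
    omega
  · unfold p₁
    rw [← hm]
    have : z * (x * m - y) - x = (m * z - 1) * x - y * z := by ring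
    rw [this, ← hx]; ring

/-- the residue of `l` mod `p` for which `p ∣ t (5 y - 1) (l + Z) + y` -/
def sol (t Z p y : ℕ) : ℕ :=
  ((-(y : ZMod p)) * ((t * (5 * y - 1) : ℕ) : ZMod p)⁻¹ - (Z : ZMod p)).val

/-- the sieved-out classes -/
def Om (t Z p : ℕ) : Finset ℕ := (Wt t p).image (sol t Z p)

lemma cast_ne_zero {t p y : ℕ} (hp : p.Prime) (ht : 0 < t)
    (hy : y ∈ Wt t p) : ((t * (5 * y - 1) : ℕ) : ZMod p) ≠ 0 := by
  have : Fact p.Prime := ⟨hp⟩
  simp only [Wt, Finset.mem_filter, Finset.mem_Icc] at hy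
  rw [Nat.cast_mul]
  refine mul_ne_zero ?_ ?_
  · rw [Ne, ZMod.natCast_eq_zero_iff]
    intro h
    have := Nat.le_of_dvd ht h
    omega
  · rw [Ne, ZMod.natCast_eq_zero_iff]
    intro h
    have := Nat.le_of_dvd (by omega) h
    omega

lemma sol_lt {t Z p : ℕ} (hp : p.Prime) : ∀ u ∈ Om t Z p, u < p := by
  intro u hu
  simp only [Om, Finset.mem_image] at hu
  obtain ⟨y, _, rfl⟩ := hu
  have : NeZero p := ⟨hp.ne_zero⟩
  exact ZMod.val_lt _

lemma sol_spec {t Z p y l : ℕ} (hp : p.Prime) (ht : 0 < t)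
    (hy : y ∈ Wt t p) (hl : l % p = sol t Z p y) :
    ((t * (5 * y - 1) : ℕ) : ZMod p) * ((l : ZMod p) + Z) + (y : ZMod p) = 0 := by
  have : Fact p.Prime := ⟨hp⟩
  have h0 := cast_ne_zero hp ht hy
  have h1 : (l : ZMod p) + Z = (-(y : ZMod p)) * ((t * (5 * y - 1) : ℕ) : ZMod p)⁻¹ := by
    rw [← ZMod.natCast_mod l p, hl, sol, ZMod.natCast_zmod_val]
    ring
  rw [h1, mul_comm (-(y : ZMod p)), mul_inv_cancel_left₀ h0]
  ring

lemma card_Om {t Z p : ℕ} (hp : p.Prime) (ht : 0 < t) :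
    (Om t Z p).card = (Wt t p).card := by
  have : Fact p.Prime := ⟨hp⟩
  refine Finset.card_image_of_injOn fun y hy y' hy' h => ?_
  simp only [Finset.mem_coe] at hy hy'
  have hlt : sol t Z p y < p := sol_lt hp _ (Finset.mem_image_of_mem _ hy)
  have h1 := sol_spec (l := sol t Z p y) hp ht hy (Nat.mod_eq_of_lt hlt)
  have h2 := sol_spec (l := sol t Z p y) hp ht hy' (by rw [Nat.mod_eq_of_lt hlt]; exact h)
  have hy1 := Finset.mem_filter.mp hy
  have hy1' := Finset.mem_filter.mp hy'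
  rw [Finset.mem_Icc] at hy1 hy1'
  have e1 : ((5 * y - 1 : ℕ) : ZMod p) = 5 * (y : ZMod p) - 1 := by
    rw [Nat.cast_sub (by omega)]; push_cast; ring
  have e2 : ((5 * y' - 1 : ℕ) : ZMod p) = 5 * (y' : ZMod p) - 1 := by
    rw [Nat.cast_sub (by omega)]; push_cast; ring
  rw [Nat.cast_mul, e1] at h1
  rw [Nat.cast_mul, e2] at h2
  have h3 : (y : ZMod p) = (y' : ZMod p) := by
    linear_combination (5 * (y' : ZMod p) - 1) * (-1) * h1 + (5 * (y : ZMod p) - 1) * h2
  rw [ZMod.natCast_eq_natCast_iff, Nat.ModEq, Nat.mod_eq_of_lt (by omega),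
    Nat.mod_eq_of_lt (by omega)] at h3
  exact h3

/-- an integer in a sieved-out class mod `p` has a representation which determines `p` -/
lemma triple_of_mem {t Z p l : ℕ} (hp : p.Prime) (ht : 0 < t)
    (hl : l % p ∈ Om t Z p) : ∃ v : ℤ × ℤ × ℤ, (0 < v.1 ∧ 0 < v.2.1 ∧ 0 < v.2.2 ∧
      p₁ v.1 v.2.1 v.2.2 = (t : ℤ) * ((l : ℤ) + Z)) ∧ (5 * v.2.1 - 1) * v.2.2 - 1 = (p : ℤ) := by
  rw [Om, Finset.mem_image] at hl
  obtain ⟨y, hy, hyl⟩ := hl
  have h1 := sol_spec (l := l) hp ht hy hyl.symm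
  simp only [Wt, Finset.mem_filter, Finset.mem_Icc] at hy
  obtain ⟨⟨hy1, hyY⟩, ⟨z, hz⟩, hty⟩ := hy
  have hz0 : 0 < z := by
    rcases Nat.eq_zero_or_pos z with rfl | h
    · omega
    · exact h
  have h2 : (p : ℤ) ∣ (t * (5 * y - 1) : ℤ) * (l + Z) + y := by
    rw [← ZMod.intCast_zmod_eq_zero_iff_dvd]
    push_cast
    rw [Nat.cast_mul, Nat.cast_sub (by omega)] at h1
    push_cast at h1
    exact h1
  have h3 : (p : ℤ) = (5 * y - 1) * z - 1 := by
    have : ((p + 1 : ℕ) : ℤ) = ((5 * y - 1 : ℕ) : ℤ) * z := by rw [hz]; push_cast; ring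
    rw [Nat.cast_sub (by omega)] at this
    push_cast at this
    linarith
  obtain ⟨x, hx0, hx⟩ := triple_of_dvd (y := y) (z := z) (q := (t : ℤ) * ((l : ℤ) + Z))
    (by exact_mod_cast hy1) (by exact_mod_cast hz0) (by positivity) (by
      rw [← h3]
      have : (5 * (y : ℤ) - 1) * ((t : ℤ) * ((l : ℤ) + Z)) + y =
          (t * (5 * y - 1) : ℤ) * (l + Z) + y := by ring
      rw [this]
      exact h2)
  have hy' : (0 : ℤ) < y := by exact_mod_cast hy1
  have hz' : (0 : ℤ) < z := by exact_mod_cast hz0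
  exact ⟨(x, (y : ℤ), (z : ℤ)), ⟨hx0, hy', hz', hx⟩, h3.symm⟩

/-! ### The size of the sieve -/

/-- the sifting primes -/
def Pr (N : ℕ) : Finset ℕ := (Finset.Icc 1 N).filter Nat.Prime

/-- the sum `∑ |Ω p| / p` over the primes up to `N` -/
noncomputable def T (t N : ℕ) : ℝ := ∑ p ∈ Pr N, ((Wt t p).card : ℝ) / p

lemma term_nonneg (t p : ℕ) : 0 ≤ ((Wt t p).card : ℝ) / p :=
  div_nonneg (Nat.cast_nonneg _) (Nat.cast_nonneg _)

lemma card_Wt_le (t p : ℕ) : (Wt t p).card ≤ p := by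
  calc (Wt t p).card ≤ (Finset.Icc 1 p).card := Finset.card_filter_le _ _
    _ = p := by simp

lemma term_le_one (t p : ℕ) : ((Wt t p).card : ℝ) / p ≤ 1 :=
  div_le_one_of_le₀ (by exact_mod_cast card_Wt_le t p) (Nat.cast_nonneg _)

lemma T_nonneg (t N : ℕ) : 0 ≤ T t N := Finset.sum_nonneg fun p _ => term_nonneg t p

lemma T_succ (t N : ℕ) : T t (N + 1) ≤ T t N + 1 := by
  unfold T Pr
  rw [Finset.sum_filter, Finset.sum_filter, Finset.sum_Icc_succ_top (by omega)]
  have : (if Nat.Prime (N + 1) then ((Wt t (N + 1)).card : ℝ) / ((N + 1 : ℕ) : ℝ) else 0) ≤ 1 := by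
    split_ifs
    · exact term_le_one t (N + 1)
    · norm_num
  linarith

lemma trim {t N : ℕ} {τ : ℝ} (h0 : 0 ≤ τ) (h : τ ≤ T t N) :
    ∃ M ≤ N, τ ≤ T t M ∧ T t M ≤ τ + 1 := by
  classical
  have hex : ∃ M, τ ≤ T t M := ⟨N, h⟩
  refine ⟨Nat.find hex, Nat.find_le h, Nat.find_spec hex, ?_⟩
  rcases Nat.eq_zero_or_pos (Nat.find hex) with h1 | h1
  · rw [h1]
    have : T t 0 = 0 := by simp [T, Pr]
    linarith
  · obtain ⟨k, hk⟩ := Nat.exists_eq_succ_of_ne_zero h1.ne'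
    have h2 : T t k < τ := not_le.1 (Nat.find_min hex (by omega))
    rw [hk]
    have := T_succ t k
    simp only [Nat.succ_eq_add_one]
    linarith

lemma T_blocks (t : ℕ) : ∃ X0 : ℝ, 1 ≤ X0 ∧ ∀ J : ℕ,
    (1 / 1000000 : ℝ) * J ≤ T t ⌊3 * (X0 * 10 ^ J)⌋₊ := by
  obtain ⟨X1, hX1⟩ := Filter.eventually_atTop.1 (block_lower t)
  refine ⟨max X1 1, le_max_right _ _, fun J => ?_⟩
  set X0 := max X1 1 with hX0
  have h1 : 1 ≤ X0 := le_max_right _ _
  induction J with
  | zero => simpa using T_nonneg t _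
  | succ J ih =>
    set A := X0 * 10 ^ J with hA
    have hA1 : 1 ≤ A := by
      have : (1 : ℝ) ≤ 10 ^ J := one_le_pow₀ (by norm_num)
      rw [hA]
      nlinarith
    have hB : X0 * 10 ^ (J + 1) = 10 * A := by rw [hA, pow_succ]; ring
    rw [hB]
    have hblock := hX1 (10 * A) (by
      have : X1 ≤ X0 := le_max_left _ _
      have : X0 ≤ A := by
        have : (1 : ℝ) ≤ 10 ^ J := one_le_pow₀ (by norm_num)
        rw [hA]
        nlinarith
      linarith)
    have hdis : Disjoint (Pr ⌊3 * A⌋₊) (BP (10 * A)) := by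
      rw [Finset.disjoint_left]
      intro p hp hp'
      simp only [Pr, BP, Finset.mem_filter, Finset.mem_Icc] at hp hp'
      have h2 : (p : ℝ) ≤ 3 * A :=
        (Nat.cast_le.2 hp.1.2).trans (Nat.floor_le (by positivity))
      have h3 := hp'.2.2
      rw [div_lt_iff₀ (Real.exp_pos 1)] at h3
      have he : Real.exp 1 < 3 := by
        have := Real.exp_one_lt_d9
        linarith
      have : (p : ℝ) * Real.exp 1 ≤ 3 * A * 3 := by gcongr
      linarith
    have hsub : Pr ⌊3 * A⌋₊ ∪ BP (10 * A) ⊆ Pr ⌊3 * (10 * A)⌋₊ := by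
      intro p hp
      simp only [Pr, BP, Finset.mem_filter, Finset.mem_Icc, Finset.mem_union] at hp ⊢
      have hmono : ⌊3 * A⌋₊ ≤ ⌊3 * (10 * A)⌋₊ := Nat.floor_le_floor (by linarith)
      rcases hp with hp | hp
      · exact ⟨⟨hp.1.1, hp.1.2.trans hmono⟩, hp.2⟩
      · exact ⟨hp.1, hp.2.1⟩
    have h2 : T t ⌊3 * A⌋₊ + ∑ p ∈ BP (10 * A), ((Wt t p).card : ℝ) / p ≤
        T t ⌊3 * (10 * A)⌋₊ := by
      unfold T
      rw [← Finset.sum_union hdis]
      exact Finset.sum_le_sum_of_subset_of_nonneg hsub fun p _ _ => term_nonneg t p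
    push_cast
    linarith

/-! ### Groups of primes -/

lemma Pr_prime {M p : ℕ} (hp : p ∈ Pr M) : p.Prime := (Finset.mem_filter.mp hp).2

lemma Pr_mono {a b : ℕ} (h : a ≤ b) : Pr a ⊆ Pr b := by
  intro p hp
  rw [Pr, Finset.mem_filter, Finset.mem_Icc] at hp ⊢
  exact ⟨⟨hp.1.1, hp.1.2.trans h⟩, hp.2⟩

lemma T_mono (t : ℕ) {a b : ℕ} (h : a ≤ b) : T t a ≤ T t b :=
  Finset.sum_le_sum_of_subset_of_nonneg (Pr_mono h) fun p _ _ => term_nonneg t p

lemma levels {t N r : ℕ} {τ : ℝ} (hτ : 2 ≤ τ) (h : r * τ ≤ T t N) :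
    ∃ L : ℕ → ℕ, Monotone L ∧ (∀ i, L i ≤ N) ∧
      ∀ i ≤ r, i * τ ≤ T t (L i) ∧ T t (L i) ≤ i * τ + 1 := by
  have hex : ∀ i : ℕ, ∃ M : ℕ, i ≤ r → M ≤ N ∧ i * τ ≤ T t M ∧ T t M ≤ i * τ + 1 := by
    intro i
    by_cases hi : i ≤ r
    · have h1 : (i : ℝ) * τ ≤ T t N := by
        have : (i : ℝ) ≤ r := by exact_mod_cast hi
        nlinarith
      obtain ⟨M, hM, h2, h3⟩ := trim (by positivity) h1
      exact ⟨M, fun _ => ⟨hM, h2, h3⟩⟩
    · exact ⟨0, fun h => absurd h hi⟩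
  choose L0 hL0 using hex
  refine ⟨fun i => L0 (min i r), ?_, fun i => (hL0 _ (min_le_right i r)).1, ?_⟩
  · refine monotone_nat_of_le_succ fun i => ?_
    rcases Nat.lt_or_ge i r with hi | hi
    · rw [min_eq_left hi.le, min_eq_left (by omega : i + 1 ≤ r)]
      by_contra hcon
      push Not at hcon
      have h1 := T_mono t hcon.le
      have h2 := (hL0 i hi.le).2.2
      have h3 := (hL0 (i + 1) hi).2.1
      push_cast at h3
      nlinarith
    · rw [min_eq_right hi, min_eq_right (by omega : r ≤ i + 1)]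
  · intro i hi
    simp only [min_eq_left hi]
    exact (hL0 i hi).2

/-- the groups of primes -/
def grp (L : ℕ → ℕ) (i : ℕ) : Finset ℕ := Pr (L (i + 1)) \ Pr (L i)

lemma grp_prime {L : ℕ → ℕ} {i p : ℕ} (hp : p ∈ grp L i) : p.Prime :=
  Pr_prime (Finset.mem_sdiff.mp hp).1

lemma grp_disjoint {L : ℕ → ℕ} (hL : Monotone L) (i i' : ℕ) (h : i ≠ i') :
    Disjoint (grp L i) (grp L i') := by
  have key : ∀ a b : ℕ, a < b → Disjoint (grp L a) (grp L b) := by
    intro a b hab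
    rw [Finset.disjoint_left]
    intro p hp hp'
    exact (Finset.mem_sdiff.mp hp').2 (Pr_mono (hL hab) (Finset.mem_sdiff.mp hp).1)
  rcases lt_or_gt_of_ne h with h | h
  · exact key _ _ h
  · exact (key _ _ h).symm

lemma dn_eq {t Z p : ℕ} (hp : p.Prime) (ht : 0 < t) :
    dn (Om t Z) p = ((Wt t p).card : ℝ) / p := by
  rw [dn, card_Om hp ht]

lemma mn_grp {t Z : ℕ} (ht : 0 < t) {L : ℕ → ℕ} (hL : Monotone L) (i : ℕ) :
    mn (Om t Z) (grp L i) = T t (L (i + 1)) - T t (L i) := by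
  have h1 : mn (Om t Z) (grp L i) = ∑ p ∈ Pr (L (i + 1)) \ Pr (L i), ((Wt t p).card : ℝ) / p :=
    Finset.sum_congr rfl fun p hp => dn_eq (grp_prime hp) ht
  rw [h1, eq_sub_iff_add_eq, T, T]
  exact Finset.sum_sdiff (Pr_mono (hL (Nat.le_succ i)))

lemma wt_grp {t Z N : ℕ} (ht : 0 < t) {L : ℕ → ℕ} (hN : ∀ i, L i ≤ N) (i : ℕ) :
    wt (Om t Z) (grp L i) ≤ (1 + (N : ℝ)) ^ 2 := by
  have hsub : grp L i ⊆ Icc 1 N := by
    intro p hp
    have h1 := (Finset.mem_sdiff.mp hp).1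
    rw [Pr, Finset.mem_filter, Finset.mem_Icc] at h1
    rw [Finset.mem_Icc]
    exact ⟨h1.1.1, h1.1.2.trans (hN _)⟩
  have hN0 : (0 : ℝ) ≤ N := Nat.cast_nonneg N
  calc wt (Om t Z) (grp L i) ≤ ∑ p ∈ grp L i, (N : ℝ) := by
        refine Finset.sum_le_sum fun p hp => ?_
        rw [card_Om (grp_prime hp) ht]
        have h1 := card_Wt_le t p
        have h2 := (Finset.mem_Icc.mp (hsub hp)).2
        exact_mod_cast h1.trans h2
    _ = (grp L i).card * (N : ℝ) := by rw [Finset.sum_const, nsmul_eq_mul]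
    _ ≤ (N : ℝ) * N := by
        have h3 : (grp L i).card ≤ N := by
          calc (grp L i).card ≤ (Icc 1 N).card := Finset.card_le_card hsub
            _ = N := by simp
        have : ((grp L i).card : ℝ) ≤ N := by exact_mod_cast h3
        gcongr
    _ ≤ _ := by nlinarith

lemma mn_le_wt {t Z : ℕ} {L : ℕ → ℕ} (i : ℕ) :
    mn (Om t Z) (grp L i) ≤ wt (Om t Z) (grp L i) := by
  refine Finset.sum_le_sum fun p hp => ?_
  have : (1 : ℝ) ≤ p := by exact_mod_cast (grp_prime hp).one_lt.le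
  exact div_le_self (Nat.cast_nonneg _) this

lemma vr_bounds {t Z : ℕ} (ht : 0 < t) {L : ℕ → ℕ} (i : ℕ) :
    0 ≤ vr (Om t Z) (grp L i) ∧ vr (Om t Z) (grp L i) ≤ mn (Om t Z) (grp L i) := by
  have h : ∀ p ∈ grp L i, 0 ≤ dn (Om t Z) p ∧ dn (Om t Z) p ≤ 1 := by
    intro p hp
    rw [dn_eq (grp_prime hp) ht]
    exact ⟨term_nonneg t p, term_le_one t p⟩
  constructor
  · refine Finset.sum_nonneg fun p hp => ?_
    obtain ⟨h1, h2⟩ := h p hp
    nlinarith
  · refine Finset.sum_le_sum fun p hp => ?_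
    obtain ⟨h1, h2⟩ := h p hp
    nlinarith

lemma atLeast_of_group {t Z l : ℕ} (ht : 0 < t) (Q : Finset ℕ) (hQ : ∀ p ∈ Q, p.Prime) :
    AtLeast (hs (Om t Z) Q l) ((t : ℤ) * ((l : ℤ) + Z)) := by
  classical
  have e : hs (Om t Z) Q l = ((Q.filter (fun p => l % p ∈ Om t Z p)).card : ℝ) := by
    unfold hs ind
    rw [Finset.card_filter]
    push_cast
    rfl
  have h : ∀ p ∈ Q.filter (fun p => l % p ∈ Om t Z p), ∃ v : ℤ × ℤ × ℤ,
      (0 < v.1 ∧ 0 < v.2.1 ∧ 0 < v.2.2 ∧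
      p₁ v.1 v.2.1 v.2.2 = (t : ℤ) * ((l : ℤ) + Z)) ∧
        (5 * v.2.1 - 1) * v.2.2 - 1 = (p : ℤ) := by
    intro p hp
    rw [Finset.mem_filter] at hp
    exact triple_of_mem (hQ p hp.1) ht hp.2
  choose! f hf using h
  rw [e]
  refine ⟨(Q.filter (fun p => l % p ∈ Om t Z p)).image f, ?_, ?_⟩
  · rw [Finset.card_image_of_injOn]
    intro p hp q hq hpq
    have h1 := (hf p hp).2
    have h2 := (hf q hq).2
    rw [hpq] at h1
    have h3 : (p : ℤ) = q := h1.symm.trans h2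
    exact_mod_cast h3
  · intro v hv
    obtain ⟨p, hp, rfl⟩ := Finset.mem_image.mp hv
    exact (hf p hp).1

lemma AtLeast.mono {j k : ℝ} {n : ℤ} (h : j ≤ k) (hk : AtLeast k n) : AtLeast j n := by
  obtain ⟨S, h1, h2⟩ := hk
  exact ⟨S, h.trans h1, h2⟩

/-- the number of `l` in `(Z, Z + X]` with fewer than `k` representations -/
noncomputable def few (k : ℝ) (t Z X : ℕ) : ℕ :=
  Set.ncard {l : ℕ | Z < l ∧ l ≤ Z + X ∧ ¬ AtLeast k ((t : ℤ) * l)}

lemma few_le (k : ℝ) (t Z X : ℕ) : few k t Z X ≤ X := by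
  unfold few
  calc _ ≤ Set.ncard ((Finset.Ioc Z (Z + X) : Finset ℕ) : Set ℕ) := by
        refine Set.ncard_le_ncard ?_ (Finset.finite_toSet _)
        intro l hl
        simp only [Finset.coe_Ioc, Set.mem_Ioc]
        exact ⟨hl.1, hl.2.1⟩
    _ = X := by rw [Set.ncard_coe_finset, Nat.card_Ioc]; omega

/-- the main estimate for `r` groups of mass about `τ` -/
lemma few_bound {t N r : ℕ} {τ : ℝ} (Z X : ℕ) (ht : 0 < t) (hτ : 2 ≤ τ) (h : r * τ ≤ T t N) :
    (few (τ / 4) t Z X : ℝ) ≤ X * (32 / τ) ^ r + (20 * (1 + (N : ℝ)) ^ 4) ^ r := by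
  classical
  obtain ⟨L, hL, hLN, hLT⟩ := levels hτ h
  set Ω := Om t Z with hΩ
  set P := grp L with hP
  have hN0 : (0 : ℝ) ≤ N := Nat.cast_nonneg N
  have hW1 : (1 : ℝ) ≤ (1 + (N : ℝ)) ^ 2 := one_le_pow₀ (by linarith)
  have hm := moments X Ω P ((1 + (N : ℝ)) ^ 2) hW1 (fun i p hp => grp_prime hp)
    (fun i p hp => sol_lt (grp_prime hp)) (grp_disjoint hL) (wt_grp ht hLN)
    (fun i => (mn_le_wt i).trans (wt_grp ht hLN i)) r ∅ (by simp) (by simp) (by simp)
  have hmass : ∀ i ∈ range r, τ / 2 ≤ mn Ω (P i) ∧ mn Ω (P i) ≤ 2 * τ := by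
    intro i hi
    rw [Finset.mem_range] at hi
    rw [hΩ, hP, mn_grp ht hL i]
    obtain ⟨a1, a2⟩ := hLT i hi.le
    obtain ⟨b1, b2⟩ := hLT (i + 1) hi
    push_cast at b1 b2
    constructor <;> nlinarith
  -- upper bound for the moment
  have hS : S X Ω P r ∅ ≤ X * (2 * τ) ^ r + (5 * (1 + (N : ℝ)) ^ 4) ^ r := by
    have h1 := (abs_le.mp hm).2
    have h2 : main X Ω P r ∅ ≤ X * (2 * τ) ^ r := by
      unfold main
      rw [Finset.prod_empty, mul_one]
      have h3 : ∏ i ∈ range r, vr Ω (P i) ≤ ∏ i ∈ range r, (2 * τ) :=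
        Finset.prod_le_prod (fun i _ => (vr_bounds ht i).1)
          fun i hi => (vr_bounds ht i).2.trans (hmass i hi).2
      rw [Finset.prod_const, Finset.card_range] at h3
      gcongr
    have h4 : er Ω (5 * ((1 + (N : ℝ)) ^ 2) ^ 2) r ∅ = (5 * (1 + (N : ℝ)) ^ 4) ^ r := by
      unfold er
      rw [Finset.prod_empty, one_mul]
      congr 1
      ring
    rw [h4] at h1
    linarith
  -- the bad integers
  set B := (Ioc 0 X).filter (fun l => ∀ i ∈ range r, hs Ω (P i) l < mn Ω (P i) / 2) with hB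
  have hB1 : (B.card : ℝ) * (τ ^ 2 / 16) ^ r ≤ S X Ω P r ∅ := by
    have e1 : cls X Ω ∅ = Ioc 0 X := by
      unfold cls
      simp
    unfold S
    rw [e1]
    calc (B.card : ℝ) * (τ ^ 2 / 16) ^ r = ∑ l ∈ B, (τ ^ 2 / 16) ^ r := by
          rw [Finset.sum_const, nsmul_eq_mul]
      _ ≤ ∑ l ∈ B, Fp Ω P r l := by
          refine Finset.sum_le_sum fun l hl => ?_
          have h1 := (Finset.mem_filter.mp hl).2
          unfold Fp
          rw [← Finset.card_range r, ← Finset.prod_const, Finset.card_range]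
          refine Finset.prod_le_prod (fun i _ => by positivity) fun i hi => ?_
          have h2 := h1 i hi
          obtain ⟨h3, _⟩ := hmass i hi
          nlinarith
      _ ≤ ∑ l ∈ Ioc 0 X, Fp Ω P r l :=
          Finset.sum_le_sum_of_subset_of_nonneg (Finset.filter_subset _ _)
            fun l _ _ => Finset.prod_nonneg fun i _ => sq_nonneg _
  have hB2 : (B.card : ℝ) ≤ X * (32 / τ) ^ r + (20 * (1 + (N : ℝ)) ^ 4) ^ r := by
    have hpos : 0 < (τ ^ 2 / 16) ^ r := by positivity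
    have h1 : (B.card : ℝ) ≤ (X * (2 * τ) ^ r + (5 * (1 + (N : ℝ)) ^ 4) ^ r) /
        (τ ^ 2 / 16) ^ r := by
      rw [le_div_iff₀ hpos]
      exact hB1.trans hS
    refine h1.trans ?_
    rw [add_div, mul_div_assoc, ← div_pow, ← div_pow]
    have e1 : 2 * τ / (τ ^ 2 / 16) = 32 / τ := by
      field_simp
      ring
    rw [e1]
    have e2 : 5 * (1 + (N : ℝ)) ^ 4 / (τ ^ 2 / 16) ≤ 20 * (1 + (N : ℝ)) ^ 4 := by
      rw [div_le_iff₀ (by positivity)]
      have : 1 ≤ τ ^ 2 / 4 := by nlinarith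
      have h0 : 0 ≤ 5 * (1 + (N : ℝ)) ^ 4 := by positivity
      nlinarith
    gcongr
  refine le_trans ?_ hB2
  have hcard : few (τ / 4) t Z X ≤ B.card := by
    unfold few
    rw [← Finset.card_image_of_injective _ (add_left_injective Z), ← Set.ncard_coe_finset]
    refine Set.ncard_le_ncard ?_ (Finset.finite_toSet _)
    intro l hl
    simp only [Finset.coe_image, Set.mem_image]
    have hl1 : Z < l := hl.1
    have hl2 : l ≤ Z + X := hl.2.1
    refine ⟨l - Z, ?_, by omega⟩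
    rw [Finset.mem_coe, hB, Finset.mem_filter, Finset.mem_Ioc]
    refine ⟨⟨by omega, by omega⟩, fun i hi => ?_⟩
    by_contra hge
    push Not at hge
    refine hl.2.2 ?_
    have h8 : τ / 4 ≤ hs Ω (P i) (l - Z) := by
      have := (hmass i hi).1
      linarith
    have h9 := (atLeast_of_group (t := t) (Z := Z) (l := l - Z) ht (P i)
      (fun p hp => grp_prime hp)).mono h8
    have e9 : (((l - Z : ℕ) : ℤ) + Z) = l := by
      rw [Nat.cast_sub hl1.le]; ring
    rwa [e9] at h9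
  exact_mod_cast hcard

lemma exp_bound {X0 : ℝ} (hX0 : 1 ≤ X0) (J : ℕ) :
    1 + ((⌊3 * (X0 * 10 ^ J)⌋₊ : ℕ) : ℝ) ≤ Real.exp (Real.log (4 * X0) + 3 * J) := by
  set K := Real.log (4 * X0) with hK
  set N : ℕ := ⌊3 * (X0 * 10 ^ J)⌋₊ with hN
  have h10 : (1 : ℝ) ≤ 10 ^ J := one_le_pow₀ (by norm_num)
  have hN1 : (N : ℝ) ≤ 3 * (X0 * 10 ^ J) := Nat.floor_le (by positivity)
  have h1 : 1 + (N : ℝ) ≤ 4 * X0 * 10 ^ J := by nlinarith
  have h2 : (10 : ℝ) ^ J ≤ Real.exp (3 * J) := by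
    have h3 : (10 : ℝ) ≤ Real.exp 3 := by
      have h4 : Real.exp 3 = Real.exp 1 * Real.exp 1 * Real.exp 1 := by
        rw [← Real.exp_add, ← Real.exp_add]; norm_num
      have h5 := Real.exp_one_gt_d9
      have h6 : (2.7 : ℝ) ≤ Real.exp 1 := by linarith
      have h7 : (2.7 : ℝ) * 2.7 * 2.7 ≤ Real.exp 1 * Real.exp 1 * Real.exp 1 := by gcongr
      rw [h4]
      norm_num at h7 ⊢
      linarith
    calc (10 : ℝ) ^ J ≤ Real.exp 3 ^ J := pow_le_pow_left₀ (by norm_num) h3 J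
      _ = Real.exp (3 * J) := by rw [← Real.exp_nat_mul]; ring_nf
  rw [Real.exp_add, hK, Real.exp_log (by linarith)]
  calc 1 + (N : ℝ) ≤ 4 * X0 * 10 ^ J := h1
    _ ≤ 4 * X0 * Real.exp (3 * J) := by gcongr

/-- **Many representations outside very small sets.**  For every `A` there is `c > 0` such that for
every `t ≥ 1` (in particular `t = 252`) every interval `(Z, Z + X]` contains at most
`C X / (log X) ^ A` integers `l` such that `t * l` has fewer than `c log X` representations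
`p₁ x y z` with positive integers `x, y, z`, where `C` depends only on `A` and `t`. -/
theorem result : ∀ A : ℕ, ∃ c : ℝ, 0 < c ∧ ∀ t : ℕ, 0 < t → ∃ C : ℝ, ∀ Z X : ℕ, 2 ≤ X →
    (Set.ncard {l : ℕ | Z < l ∧ l ≤ Z + X ∧
      ¬ AtLeast (c * Real.log X) ((t : ℤ) * l)} : ℝ) ≤ C * X / Real.log X ^ A := by
  intro r
  set c1 : ℝ := 1 / (128000000 * ((r : ℝ) + 1) ^ 2) with hc1
  have hr0 : (0 : ℝ) ≤ r := Nat.cast_nonneg r
  have hc1pos : 0 < c1 := by positivity
  refine ⟨c1 / 4, by positivity, fun t ht => ?_⟩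
  obtain ⟨X0, hX0, hblocks⟩ := T_blocks t
  set K := Real.log (4 * X0) with hK
  set L0 : ℝ := 64 * (r + 1) * (2000000 * (r + 1) + 1) with hL0
  refine ⟨L0 ^ r + (32 / c1) ^ r + (20 * Real.exp (4 * K)) ^ r * (2 ^ r * r.factorial),
    fun Z X hX => ?_⟩
  have hXpos : (0 : ℝ) < X := by exact_mod_cast (by omega : 0 < X)
  have hX1 : (1 : ℝ) < X := by exact_mod_cast (by omega : 1 < X)
  set L := Real.log X with hL
  have hLpos : 0 < L := Real.log_pos hX1
  have hLr : 0 < L ^ r := by positivity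
  have hL0pos : 0 < L0 := by positivity
  have t1 : 0 ≤ L0 ^ r := by positivity
  have t2 : 0 ≤ (32 / c1) ^ r := by positivity
  have t3 : 0 ≤ (20 * Real.exp (4 * K)) ^ r * (2 ^ r * r.factorial) := by positivity
  change (few (c1 / 4 * L) t Z X : ℝ) ≤ _
  rw [le_div_iff₀ hLr]
  rcases lt_or_ge L L0 with h48 | h48
  · have h1 : (few (c1 / 4 * L) t Z X : ℝ) ≤ X := by
      exact_mod_cast few_le (c1 / 4 * L) t Z X
    have h2 : L ^ r ≤ L0 ^ r := pow_le_pow_left₀ hLpos.le h48.le r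
    calc (few (c1 / 4 * L) t Z X : ℝ) * L ^ r ≤ X * L0 ^ r := by gcongr
      _ ≤ _ := by nlinarith [mul_nonneg t2 hXpos.le, mul_nonneg t3 hXpos.le]
  · set J : ℕ := ⌊L / (64 * (r + 1))⌋₊ with hJ
    have hJ1 : (J : ℝ) ≤ L / (64 * (r + 1)) := Nat.floor_le (by positivity)
    have hJ2 : L / (64 * (r + 1)) < J + 1 := Nat.lt_floor_add_one _
    have hq : 2000000 * ((r : ℝ) + 1) + 1 ≤ L / (64 * (r + 1)) := by
      rw [le_div_iff₀ (by positivity)]
      rw [hL0] at h48
      linarith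
    have hJ3 : 2000000 * ((r : ℝ) + 1) ≤ J := by linarith
    have hJ4 : L / (128 * (r + 1)) ≤ J := by
      have e : L / (128 * (r + 1)) = (L / (64 * (r + 1))) / 2 := by
        field_simp
        ring
      rw [e]
      nlinarith
    set τ : ℝ := J / (1000000 * (r + 1)) with hτ
    have hτ2 : 2 ≤ τ := by
      rw [hτ, le_div_iff₀ (by positivity)]
      linarith
    have hτL : c1 * L ≤ τ := by
      have e : c1 * L = (L / (128 * (r + 1))) / (1000000 * (r + 1)) := by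
        rw [hc1]
        field_simp
        ring
      rw [e, hτ]
      gcongr
    have hrτ : (r : ℝ) * τ ≤ T t ⌊3 * (X0 * 10 ^ J)⌋₊ := by
      refine le_trans ?_ (hblocks J)
      rw [hτ]
      have hJ0 : (0 : ℝ) ≤ J := Nat.cast_nonneg J
      rw [mul_div_assoc', div_le_iff₀ (by positivity)]
      nlinarith
    have h1 := few_bound Z X ht hτ2 hrτ
    have hexp := exp_bound hX0 J
    rw [← hK] at hexp
    set N : ℕ := ⌊3 * (X0 * 10 ^ J)⌋₊ with hN
    have h2 : few (c1 / 4 * L) t Z X ≤ few (τ / 4) t Z X := by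
      unfold few
      refine Set.ncard_le_ncard ?_ ?_
      · intro l hl
        exact ⟨hl.1, hl.2.1, fun h => hl.2.2 (h.mono (by linarith))⟩
      · refine Set.Finite.subset (Finset.finite_toSet (Finset.Ioc Z (Z + X))) ?_
        intro l hl
        simp only [Finset.coe_Ioc, Set.mem_Ioc]
        exact ⟨hl.1, hl.2.1⟩
    have h3 : (few (c1 / 4 * L) t Z X : ℝ) ≤ few (τ / 4) t Z X := by exact_mod_cast h2
    have h4 : (32 / τ) ^ r * L ^ r ≤ (32 / c1) ^ r := by
      rw [← mul_pow]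
      refine pow_le_pow_left₀ (by positivity) ?_ r
      rw [div_mul_eq_mul_div, div_le_div_iff₀ (by linarith) hc1pos]
      nlinarith
    have h5 : (20 * (1 + (N : ℝ)) ^ 4) ^ r * L ^ r ≤
        (20 * Real.exp (4 * K)) ^ r * (2 ^ r * r.factorial) * X := by
      have a1 : (1 + (N : ℝ)) ^ 4 ≤ Real.exp (4 * K) * Real.exp (12 * J) := by
        calc (1 + (N : ℝ)) ^ 4 ≤ Real.exp (K + 3 * J) ^ 4 := by gcongr
          _ = Real.exp (4 * K) * Real.exp (12 * J) := by
              rw [← Real.exp_nat_mul, ← Real.exp_add]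
              congr 1
              push_cast
              ring
      have a2 : (20 * (1 + (N : ℝ)) ^ 4) ^ r ≤
          (20 * Real.exp (4 * K)) ^ r * Real.exp (L / 4) := by
        calc (20 * (1 + (N : ℝ)) ^ 4) ^ r ≤
              (20 * (Real.exp (4 * K) * Real.exp (12 * J))) ^ r := by gcongr
          _ = (20 * Real.exp (4 * K)) ^ r * Real.exp (r * (12 * J)) := by
              rw [← mul_assoc, mul_pow, ← Real.exp_nat_mul]
          _ ≤ _ := by
              have : (r : ℝ) * (12 * J) ≤ L / 4 := by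
                have hJr : (J : ℝ) * (64 * (r + 1)) ≤ L := by
                  rwa [le_div_iff₀ (by positivity)] at hJ1
                have hJ0 : (0 : ℝ) ≤ J := Nat.cast_nonneg J
                nlinarith
              gcongr
      have a3 : L ^ r ≤ 2 ^ r * r.factorial * Real.exp (L / 2) := by
        have := Real.pow_div_factorial_le_exp (L / 2) (by positivity) r
        rw [div_le_iff₀ (by positivity), div_pow, div_le_iff₀ (by positivity)] at this
        calc L ^ r ≤ _ := this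
          _ = _ := by ring
      have a4 : Real.exp (L / 4) * Real.exp (L / 2) ≤ X := by
        calc Real.exp (L / 4) * Real.exp (L / 2) = Real.exp (L / 4 + L / 2) :=
              (Real.exp_add _ _).symm
          _ ≤ Real.exp L := Real.exp_le_exp.mpr (by linarith)
          _ = X := Real.exp_log hXpos
      calc (20 * (1 + (N : ℝ)) ^ 4) ^ r * L ^ r ≤
            ((20 * Real.exp (4 * K)) ^ r * Real.exp (L / 4)) *
              (2 ^ r * r.factorial * Real.exp (L / 2)) := by gcongr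
        _ = (20 * Real.exp (4 * K)) ^ r * (2 ^ r * r.factorial) *
              (Real.exp (L / 4) * Real.exp (L / 2)) := by ring
        _ ≤ _ := by gcongr
    calc (few (c1 / 4 * L) t Z X : ℝ) * L ^ r
        ≤ (X * (32 / τ) ^ r + (20 * (1 + (N : ℝ)) ^ 4) ^ r) * L ^ r := by
          have := h3.trans h1
          gcongr
      _ = X * ((32 / τ) ^ r * L ^ r) + (20 * (1 + (N : ℝ)) ^ 4) ^ r * L ^ r := by ring
      _ ≤ X * (32 / c1) ^ r +
          (20 * Real.exp (4 * K)) ^ r * (2 ^ r * r.factorial) * X := by gcongr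
      _ ≤ _ := by nlinarith [mul_nonneg t1 hXpos.le]

end Pool.Agent.Results.MP_9aa437_nt.ManyRepresentations
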