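import Pool.Agent.Lib.MP_9aa437_nt.Quad.Rough

set_option autoImplicit false

/-!
# Nearly `(log X)²` representations outside a small set

There is an absolute constant `c > 0` such that for every `t ≥ 1` (in particular `t = 252`) all but
`O(X (log log X)² / log X)` of the integers `l` in any interval `(Z, Z + X]` are such that `t * l`
has at least `c (log X)² / log log X` representations `z (x (5 y - 1) - y) - x` with positive
integers `x, y, z`.
-/

namespace Pool.Agent.Results.MP_9aa437_nt.NearOrder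

open Pool.Agent.Lib.MP_9aa437_nt Pool.Agent.Lib.MP_9aa437_nt.Quad Finset

/-- The polynomial `p₁(x, y, z) = z (x (5 y - 1) - y) - x`. -/
def p₁ (x y z : ℤ) : ℤ := z * (x * (5 * y - 1) - y) - x

/-- `n` has at least `k` representations: there is a finite set of at least `k` triples
`(x, y, z)` of positive integers with `p₁ x y z = n`. -/
def AtLeast (k : ℝ) (n : ℤ) : Prop :=
  ∃ S : Finset (ℤ × ℤ × ℤ), k ≤ (S.card : ℝ) ∧
    ∀ v ∈ S, 0 < v.1 ∧ 0 < v.2.1 ∧ 0 < v.2.2 ∧ p₁ v.1 v.2.1 v.2.2 = n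

/-! ### Good residue classes -/

/-- If `p = m z - 1` with `m = 5 y - 1` divides `m q + y`, then `q = p₁ x y z` for some `x`. -/
lemma triple_of_dvd {y z q : ℤ} (hy : 0 < y) (hz : 0 < z) (hq : 0 ≤ q)
    (h : (5 * y - 1) * z - 1 ∣ (5 * y - 1) * q + y) : ∃ x : ℤ, 0 < x ∧ p₁ x y z = q := by
  set m := 5 * y - 1 with hm
  have hm1 : 4 ≤ m := by omega
  have hp : 0 < m * z - 1 := by nlinarith
  have hco : IsCoprime (m * z - 1) m := ⟨-1, z, by ring⟩
  have h2 : m * z - 1 ∣ m * (q + y * z) := by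
    have : m * (q + y * z) = (m * q + y) + y * (m * z - 1) := by ring
    rw [this]
    exact dvd_add h (Dvd.intro_left _ rfl)
  have h3 : m * z - 1 ∣ q + y * z := hco.dvd_of_dvd_mul_left h2
  obtain ⟨x, hx⟩ := h3
  have hpos : 0 < q + y * z := by positivity
  refine ⟨x, ?_, ?_⟩
  · by_contra hneg
    push Not at hneg
    have : (m * z - 1) * x ≤ 0 := mul_nonpos_of_nonneg_of_nonpos hp.le hneg
    omega
  · unfold p₁
    rw [← hm]
    have : z * (x * m - y) - x = (m * z - 1) * x - y * z := by ring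
    rw [this, ← hx]; ring

/-! ### Moments of the number of good classes -/

/-- the pairs `(y, k)` whose modulus has no prime factor up to `W` -/
def Vr (W Y : ℕ) : Finset (ℕ × ℕ) := (V Y).filter (fun v => Rough W (M 5 v.1 v.2))

lemma Vr_sub (W Y : ℕ) : Vr W Y ⊆ V Y := Finset.filter_subset _ _

lemma Vr_coprime {t W Y : ℕ} (ht : 0 < t) (htW : t ≤ W) {v : ℕ × ℕ} (hv : v ∈ Vr W Y) :
    Nat.Coprime t (M 5 v.1 v.2) := by
  by_contra hcon
  obtain ⟨p, hp, h1, h2⟩ := Nat.Prime.not_coprime_iff_dvd.mp hcon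
  have h3 := (Finset.mem_filter.mp hv).2 p (by
    rw [PrW, Finset.mem_filter, Finset.mem_Icc]
    exact ⟨⟨hp.one_lt.le, (Nat.le_of_dvd ht h1).trans htW⟩, hp⟩)
  exact h3 h2

/-- the pairs `(y, k)` for which `l` lies in the good class -/
def hits (t Z W Y l : ℕ) : Finset (ℕ × ℕ) := (Vr W Y).filter (fun v => Hit 5 t Z v.1 v.2 l)

lemma atLeast_of_hits {t Z W Y l : ℕ} :
    AtLeast ((hits t Z W Y l).card : ℝ) ((t : ℤ) * ((l : ℤ) + Z)) := by
  classical
  have h : ∀ v ∈ hits t Z W Y l, ∃ x : ℤ, 0 < x ∧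
      p₁ x (v.1 : ℤ) ((5 : ℤ) * v.2) = (t : ℤ) * ((l : ℤ) + Z) := by
    intro v hv
    rw [hits, Finset.mem_filter] at hv
    obtain ⟨hv1, hv2⟩ := hv
    obtain ⟨⟨a1, a2⟩, ⟨a3, a4⟩⟩ := mem_V (Vr_sub W Y hv1)
    have e1 : (0 : ℤ) < (v.1 : ℤ) := by exact_mod_cast a1
    have e2 : (0 : ℤ) < (v.2 : ℤ) := by exact_mod_cast a3
    refine triple_of_dvd (y := (v.1 : ℤ)) (z := (5 : ℤ) * v.2) e1 (by positivity) (by positivity) ?_
    have e3 : ((M 5 v.1 v.2 : ℕ) : ℤ) = (5 * (v.1 : ℤ) - 1) * ((5 : ℤ) * v.2) - 1 := by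
      have h1 : ((M 5 v.1 v.2 + 1 : ℕ) : ℤ) = (((5 * v.1 - 1) * 5 * v.2 : ℕ) : ℤ) := by
        rw [M_succ (by norm_num) a1 a3]
      rw [Nat.cast_mul, Nat.cast_mul, Nat.cast_sub (by omega)] at h1
      push_cast at h1
      linarith
    rw [← e3]
    unfold Hit at hv2
    have h2 := Int.natCast_dvd_natCast.mpr hv2
    rw [Nat.cast_add, Nat.cast_mul, Nat.cast_sub (by omega)] at h2
    push_cast at h2
    exact h2
  choose! f hf using h
  refine ⟨(hits t Z W Y l).image (fun v => (f v, ((v.1 : ℤ), (5 : ℤ) * v.2))), ?_, ?_⟩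
  · rw [Finset.card_image_of_injOn]
    intro v _ v' _ hvv
    simp only [Prod.mk.injEq] at hvv
    have h1 : v.1 = v'.1 := by exact_mod_cast hvv.2.1
    have h2 : (v.2 : ℤ) = v'.2 := mul_left_cancel₀ (by norm_num) hvv.2.2
    exact Prod.ext h1 (by exact_mod_cast h2)
  · intro u hu
    obtain ⟨v, hv, rfl⟩ := Finset.mem_image.mp hu
    have hv1 := (Finset.mem_filter.mp hv).1
    obtain ⟨⟨a1, a2⟩, ⟨a3, a4⟩⟩ := mem_V (Vr_sub W Y hv1)
    have e1 : (0 : ℤ) < (v.1 : ℤ) := by exact_mod_cast a1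
    have e2 : (0 : ℤ) < (v.2 : ℤ) := by exact_mod_cast a3
    exact ⟨(hf v hv).1, e1, by positivity, (hf v hv).2⟩

lemma AtLeast.mono {j k : ℝ} {n : ℤ} (h : j ≤ k) (hk : AtLeast k n) : AtLeast j n := by
  obtain ⟨S, h1, h2⟩ := hk
  exact ⟨S, h.trans h1, h2⟩

/-- the mean -/
noncomputable def mu (W Y : ℕ) : ℝ := ∑ v ∈ Vr W Y, (1 / M 5 v.1 v.2 : ℝ)

lemma mu_nonneg (W Y : ℕ) : 0 ≤ mu W Y := Finset.sum_nonneg fun _ _ => by positivity

lemma card_Vr (W Y : ℕ) : ((Vr W Y).card : ℝ) ≤ (Y : ℝ) ^ 2 := by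
  have h1 : (Vr W Y).card ≤ (V Y).card := Finset.card_le_card (Vr_sub W Y)
  have h2 : ((V Y).card : ℝ) = (Y : ℝ) ^ 2 := by
    rw [V, Finset.card_product, Nat.card_Icc]
    push_cast [Nat.add_sub_cancel]
    ring
  rw [← h2]
  exact_mod_cast h1

lemma mu_le (W Y : ℕ) : mu W Y ≤ (Y : ℝ) ^ 2 := by
  refine le_trans ?_ (card_Vr W Y)
  rw [mu, ← nsmul_one ((Vr W Y).card), ← Finset.sum_const]
  refine Finset.sum_le_sum fun v hv => ?_
  obtain ⟨⟨a1, a2⟩, ⟨a3, a4⟩⟩ := mem_V (Vr_sub W Y hv)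
  have h1 := M_pos (P := 5) (by norm_num) a1 a3
  have h2 : (1 : ℝ) ≤ M 5 v.1 v.2 := by exact_mod_cast (by omega : 1 ≤ M 5 v.1 v.2)
  exact (div_le_one (by linarith)).mpr h2

lemma mu_lower {W a m r : ℕ} (hW : 2 ≤ W) (hr : Odd r)
    (hrW : 8 * (10 + 2 * Real.log W) ≤ ((r + 1 : ℕ) : ℝ))
    (ha : 4000 * Real.log W * (1 + (W : ℝ)) ^ r ≤ 2 ^ a) :
    H (2 ^ (a + m)) * (m / (8000 * Real.log W)) / 25 ≤ mu W (2 ^ (a + m)) := by
  set Y := 2 ^ (a + m) with hY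
  have h1 : H Y * (m / (8000 * Real.log W)) ≤ ∑ v ∈ Vr W Y, (1 / v.1 : ℝ) * (1 / v.2) := by
    rw [Vr, Finset.sum_filter, V, Finset.sum_product, H, Finset.sum_mul]
    refine Finset.sum_le_sum fun y hy => ?_
    have hy1 := (Finset.mem_Icc.mp hy).1
    have h2 := rough_log hy1 hW hr hrW ha m
    rw [Finset.sum_filter] at h2
    have h3 : ∑ k ∈ Icc 1 Y, (if Rough W (M 5 (y, k).1 (y, k).2) then
        (1 / ((y, k).1 : ℝ)) * (1 / ((y, k).2 : ℝ)) else 0) =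
        (1 / y : ℝ) * ∑ k ∈ Icc 1 Y, (if Rough W (M 5 y k) then (1 / k : ℝ) else 0) := by
      rw [Finset.mul_sum]
      refine Finset.sum_congr rfl fun k _ => ?_
      split_ifs <;> simp
    rw [h3]
    gcongr
  have h2 : (∑ v ∈ Vr W Y, (1 / v.1 : ℝ) * (1 / v.2)) / 25 ≤ mu W Y := by
    rw [Finset.sum_div, mu]
    refine Finset.sum_le_sum fun v hv => ?_
    obtain ⟨⟨a1, a2⟩, ⟨a3, a4⟩⟩ := mem_V (Vr_sub W Y hv)
    have h1 := M_pos (P := 5) (by norm_num) a1 a3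
    have h2 : (0 : ℝ) < M 5 v.1 v.2 := by exact_mod_cast (by omega : 0 < M 5 v.1 v.2)
    have h3 : (M 5 v.1 v.2 : ℝ) ≤ 5 * (5 * v.1 * v.2) := by
      exact_mod_cast M_upper (P := 5) (by norm_num) a1 a3
    have e1 : (0 : ℝ) < v.1 := by exact_mod_cast a1
    have e2 : (0 : ℝ) < v.2 := by exact_mod_cast a3
    have e4 : (1 / v.1 : ℝ) * (1 / v.2) / 25 = 1 / (5 * (5 * v.1 * v.2)) := by
      field_simp
      norm_num
    rw [e4]
    exact one_div_le_one_div_of_le h2 h3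
  have h3 : H Y * (m / (8000 * Real.log W)) / 25 ≤
      (∑ v ∈ Vr W Y, (1 / v.1 : ℝ) * (1 / v.2)) / 25 := by gcongr
  exact h3.trans h2

lemma hits_card (t Z W Y l : ℕ) :
    ((hits t Z W Y l).card : ℝ) = ∑ v ∈ Vr W Y, if Hit 5 t Z v.1 v.2 l then (1 : ℝ) else 0 := by
  rw [hits, Finset.card_filter]
  push_cast
  rfl

lemma first_moment {t Z W Y : ℕ} (X : ℕ) (ht : 0 < t) (htW : t ≤ W) :
    X * mu W Y - (Y : ℝ) ^ 2 ≤ ∑ l ∈ Finset.Ioc 0 X, ((hits t Z W Y l).card : ℝ) := by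
  have e : ∑ l ∈ Finset.Ioc 0 X, ((hits t Z W Y l).card : ℝ) =
      ∑ v ∈ Vr W Y, (((Finset.Ioc 0 X).filter (fun l => Hit 5 t Z v.1 v.2 l)).card : ℝ) := by
    simp_rw [hits_card]
    rw [Finset.sum_comm]
    refine Finset.sum_congr rfl fun v _ => ?_
    rw [Finset.card_filter]
    push_cast
    rfl
  have h0 := card_Vr W Y
  have h1 : X * mu W Y - ((Vr W Y).card : ℝ) ≤
      ∑ v ∈ Vr W Y, (((Finset.Ioc 0 X).filter (fun l => Hit 5 t Z v.1 v.2 l)).card : ℝ) := by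
    rw [mu, ← nsmul_one ((Vr W Y).card), ← Finset.sum_const, Finset.mul_sum,
      ← Finset.sum_sub_distrib]
    refine Finset.sum_le_sum fun v hv => ?_
    obtain ⟨⟨a1, a2⟩, ⟨a3, a4⟩⟩ := mem_V (Vr_sub W Y hv)
    have := (abs_le.mp (one_count' (P := 5) (Z := Z) X (by norm_num)
      (Vr_coprime ht htW hv) a1 a3)).1
    rw [mul_one_div]
    linarith
  rw [e]
  linarith

/-- the total correlation -/
noncomputable def Cr (W Y : ℕ) : ℝ := ∑ v ∈ Vr W Y, ∑ v' ∈ Vr W Y, E 5 v.1 v.2 v'.1 v'.2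

lemma second_moment {t Z W Y : ℕ} (X : ℕ) (ht : 0 < t) (htW : t ≤ W) :
    ∑ l ∈ Finset.Ioc 0 X, ((hits t Z W Y l).card : ℝ) ^ 2 ≤
      (Y : ℝ) ^ 4 + X * mu W Y ^ 2 + X * Cr W Y := by
  have e : ∑ l ∈ Finset.Ioc 0 X, ((hits t Z W Y l).card : ℝ) ^ 2 =
      ∑ v ∈ Vr W Y, ∑ v' ∈ Vr W Y, (((Finset.Ioc 0 X).filter
        (fun l => Hit 5 t Z v.1 v.2 l ∧ Hit 5 t Z v'.1 v'.2 l)).card : ℝ) := by
    simp_rw [hits_card, sq, Finset.sum_mul_sum]
    rw [Finset.sum_comm]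
    refine Finset.sum_congr rfl fun v _ => ?_
    rw [Finset.sum_comm]
    refine Finset.sum_congr rfl fun v' _ => ?_
    rw [Finset.card_filter]
    push_cast
    refine Finset.sum_congr rfl fun l _ => ?_
    by_cases h1 : Hit 5 t Z v.1 v.2 l <;> by_cases h2 : Hit 5 t Z v'.1 v'.2 l <;> simp [h1, h2]
  rw [e]
  have hbd : ∀ v ∈ Vr W Y, ∀ v' ∈ Vr W Y, (((Finset.Ioc 0 X).filter
        (fun l => Hit 5 t Z v.1 v.2 l ∧ Hit 5 t Z v'.1 v'.2 l)).card : ℝ) ≤
      1 + X * ((1 / M 5 v.1 v.2) * (1 / M 5 v'.1 v'.2)) + X * E 5 v.1 v.2 v'.1 v'.2 := by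
    intro v hv v' hv'
    obtain ⟨⟨a1, a2⟩, ⟨a3, a4⟩⟩ := mem_V (Vr_sub W Y hv)
    obtain ⟨⟨b1, b2⟩, ⟨b3, b4⟩⟩ := mem_V (Vr_sub W Y hv')
    exact two_count' X (by norm_num) (Vr_coprime ht htW hv) (Vr_coprime ht htW hv') a1 a3 b1 b3
  refine (Finset.sum_le_sum fun v hv => Finset.sum_le_sum fun v' hv' => hbd v hv v' hv').trans ?_
  simp_rw [Finset.sum_add_distrib, ← Finset.mul_sum]
  have e1 : ∑ v ∈ Vr W Y, ∑ v' ∈ Vr W Y, (1 : ℝ) ≤ (Y : ℝ) ^ 4 := by
    rw [Finset.sum_const, Finset.sum_const, nsmul_eq_mul, nsmul_eq_mul, mul_one]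
    have h1 := card_Vr W Y
    have h0 : (0 : ℝ) ≤ (Vr W Y).card := Nat.cast_nonneg _
    calc ((Vr W Y).card : ℝ) * (Vr W Y).card ≤ (Y : ℝ) ^ 2 * (Y : ℝ) ^ 2 := by gcongr
      _ = _ := by ring
  have e2 : ∑ v ∈ Vr W Y, (1 / M 5 v.1 v.2 : ℝ) * ∑ v' ∈ Vr W Y, (1 / M 5 v'.1 v'.2 : ℝ) =
      mu W Y ^ 2 := by
    rw [← Finset.sum_mul, sq, mu]
  rw [e2, Cr]
  linarith

lemma variance {t Z W Y : ℕ} (X : ℕ) (ht : 0 < t) (htW : t ≤ W) :
    ∑ l ∈ Finset.Ioc 0 X, (((hits t Z W Y l).card : ℝ) - mu W Y) ^ 2 ≤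
      X * Cr W Y + 3 * (Y : ℝ) ^ 4 := by
  have e : ∑ l ∈ Finset.Ioc 0 X, (((hits t Z W Y l).card : ℝ) - mu W Y) ^ 2 =
      ∑ l ∈ Finset.Ioc 0 X, ((hits t Z W Y l).card : ℝ) ^ 2 -
        2 * mu W Y * ∑ l ∈ Finset.Ioc 0 X, ((hits t Z W Y l).card : ℝ) + X * mu W Y ^ 2 := by
    have : ∀ l ∈ Finset.Ioc 0 X, (((hits t Z W Y l).card : ℝ) - mu W Y) ^ 2 =
      ((hits t Z W Y l).card : ℝ) ^ 2 - 2 * mu W Y * ((hits t Z W Y l).card : ℝ) + mu W Y ^ 2 :=
      fun l _ => by ring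
    rw [Finset.sum_congr rfl this, Finset.sum_add_distrib, Finset.sum_sub_distrib,
      ← Finset.mul_sum, Finset.sum_const, nsmul_eq_mul, Nat.card_Ioc, Nat.sub_zero]
  rw [e]
  have h1 := first_moment (Z := Z) (Y := Y) X ht htW
  have h2 := second_moment (Z := Z) (Y := Y) X ht htW
  have hT := mu_nonneg W Y
  have hTW := mu_le W Y
  have h3 : 2 * mu W Y * (X * mu W Y - (Y : ℝ) ^ 2) ≤
      2 * mu W Y * ∑ l ∈ Finset.Ioc 0 X, ((hits t Z W Y l).card : ℝ) := by gcongr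
  have h4 : mu W Y * (Y : ℝ) ^ 2 ≤ (Y : ℝ) ^ 2 * (Y : ℝ) ^ 2 := by gcongr
  nlinarith

lemma chebyshev {t Z W Y : ℕ} (X : ℕ) (ht : 0 < t) (htW : t ≤ W) :
    (((Finset.Ioc 0 X).filter (fun l => ((hits t Z W Y l).card : ℝ) < mu W Y / 2)).card : ℝ) *
      (mu W Y ^ 2 / 4) ≤ X * Cr W Y + 3 * (Y : ℝ) ^ 4 := by
  refine le_trans ?_ (variance (Z := Z) X ht htW)
  have hT := mu_nonneg W Y
  calc (((Finset.Ioc 0 X).filter (fun l => ((hits t Z W Y l).card : ℝ) < mu W Y / 2)).card : ℝ) *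
      (mu W Y ^ 2 / 4)
      = ∑ l ∈ (Finset.Ioc 0 X).filter (fun l => ((hits t Z W Y l).card : ℝ) < mu W Y / 2),
          (mu W Y ^ 2 / 4) := by rw [Finset.sum_const, nsmul_eq_mul]
    _ ≤ ∑ l ∈ (Finset.Ioc 0 X).filter (fun l => ((hits t Z W Y l).card : ℝ) < mu W Y / 2),
          (((hits t Z W Y l).card : ℝ) - mu W Y) ^ 2 := by
        refine Finset.sum_le_sum fun l hl => ?_
        have h1 := (Finset.mem_filter.mp hl).2
        nlinarith
    _ ≤ _ := Finset.sum_le_sum_of_subset_of_nonneg (Finset.filter_subset _ _)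
        fun _ _ _ => sq_nonneg _

/-- the number of `l` in `(Z, Z + X]` with fewer than `k` representations -/
noncomputable def few (k : ℝ) (t Z X : ℕ) : ℕ :=
  Set.ncard {l : ℕ | Z < l ∧ l ≤ Z + X ∧ ¬ AtLeast k ((t : ℤ) * l)}

lemma few_le (k : ℝ) (t Z X : ℕ) : few k t Z X ≤ X := by
  unfold few
  calc _ ≤ Set.ncard ((Finset.Ioc Z (Z + X) : Finset ℕ) : Set ℕ) := by
        refine Set.ncard_le_ncard ?_ (Finset.finite_toSet _)
        intro l hl
        simp only [Finset.coe_Ioc, Set.mem_Ioc]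
        exact ⟨hl.1, hl.2.1⟩
    _ = X := by rw [Set.ncard_coe_finset, Nat.card_Ioc]; omega

lemma few_le_card {t Z W Y : ℕ} (k : ℝ) (X : ℕ) (hk : k ≤ mu W Y / 2) :
    few k t Z X ≤
      ((Finset.Ioc 0 X).filter (fun l => ((hits t Z W Y l).card : ℝ) < mu W Y / 2)).card := by
  unfold few
  rw [← Finset.card_image_of_injective _ (add_left_injective Z), ← Set.ncard_coe_finset]
  refine Set.ncard_le_ncard ?_ (Finset.finite_toSet _)
  intro l hl
  simp only [Finset.coe_image, Set.mem_image, Finset.coe_filter, Finset.mem_Ioc]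
  have hl1 : Z < l := hl.1
  have hl2 : l ≤ Z + X := hl.2.1
  refine ⟨l - Z, ⟨⟨by omega, by omega⟩, ?_⟩, by omega⟩
  by_contra hge
  push Not at hge
  refine hl.2.2 ?_
  have h9 := (atLeast_of_hits (t := t) (Z := Z) (W := W) (Y := Y) (l := l - Z)).mono (hk.trans hge)
  have e9 : (((l - Z : ℕ) : ℤ) + Z) = l := by
    rw [Nat.cast_sub hl1.le]; ring
  rwa [e9] at h9

/-! ### The main estimate -/

lemma Cr_le {n : ℕ} (hn : 2 ≤ n) : Cr n (2 ^ n) ≤ 500 * (n : ℝ) ^ 3 := by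
  set Y : ℕ := 2 ^ n with hY
  have hnr : (2 : ℝ) ≤ n := by exact_mod_cast hn
  have hY1 : 1 ≤ Y := Nat.one_le_two_pow
  have hN : ∀ y ∈ Icc 1 Y, ∀ k ∈ Icc 1 Y, M 5 y k ≤ 25 * (Y * Y) := by
    intro y hy k hk
    rw [Finset.mem_Icc] at hy hk
    have h1 := M_upper (P := 5) (by norm_num) hy.1 hk.1
    calc M 5 y k ≤ 5 * (5 * y * k) := h1
      _ = 25 * (y * k) := by ring
      _ ≤ 25 * (Y * Y) := by
        have := hy.2
        have := hk.2
        gcongr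
  have h1 := corr_sum' (P := 5) (w := n) (by norm_num) (by norm_num) (by omega) (Vr n Y)
    (Vr_sub n Y) (fun v hv g hg hgM => rough_large (Finset.mem_filter.mp hv).2 hg hgM) hN
  have hlog2 := Real.log_two_lt_d9
  have hYr : (Y : ℝ) = 2 ^ n := by rw [hY]; push_cast; ring
  have hlogY : Real.log Y = n * Real.log 2 := by rw [hYr, Real.log_pow]
  have hH : H Y ≤ 1.25 * n := by
    have h2 := H_le Y
    rw [hlogY] at h2
    nlinarith
  have hH0 := H_nonneg Y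
  have hHN : H (25 * (Y * Y)) ≤ 4 * n := by
    have h2 := H_le (25 * (Y * Y))
    have hYpos : (0 : ℝ) < Y := by exact_mod_cast hY1
    have e : Real.log ((25 * (Y * Y) : ℕ) : ℝ) = Real.log 25 + (n * Real.log 2 + n * Real.log 2) := by
      push_cast
      rw [Real.log_mul (by norm_num) (by positivity), Real.log_mul (by positivity) (by positivity),
        hlogY]
    rw [e] at h2
    have h25 : Real.log 25 ≤ 4 := by
      have e3 : Real.log 25 ≤ Real.log (2 ^ 5 : ℝ) := Real.log_le_log (by norm_num) (by norm_num)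
      rw [Real.log_pow] at e3
      have e4 := Real.log_two_lt_d9
      push_cast at e3
      linarith
    nlinarith
  have hHN0 := H_nonneg (25 * (Y * Y))
  unfold Cr
  refine h1.trans ?_
  set h := H Y
  set g := H (25 * (Y * Y))
  have hnpos : (0 : ℝ) < n := by linarith
  have u1 : h * h ≤ (1.25 * n) * (1.25 * n) := by gcongr
  have u2 : h * g ≤ (1.25 * n) * (4 * n) := by gcongr
  have u3 : h * h * h / n ≤ (1.25 * n) * (1.25 * n) * (1.25 * n) / n := by gcongr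
  have u4 : (1.25 * (n : ℝ)) * (1.25 * n) * (1.25 * n) / n = 1.953125 * n ^ 2 := by
    field_simp
    norm_num
  have u5 : 2 * (20 * ((5 : ℕ) : ℝ) * h + 4 * (h * g)) + 2 * (2 * (h * h) + 2 * (h * h * h / n)) ≤
      2 * (20 * 5 * (1.25 * n) + 4 * ((1.25 * n) * (4 * n))) +
        2 * (2 * ((1.25 * n) * (1.25 * n)) + 2 * (1.953125 * n ^ 2)) := by
    rw [u4] at u3
    push_cast
    nlinarith
  have u6 : 0 ≤ h / (9 * ((5 : ℕ) : ℝ) ^ 2) := by positivity
  have u7 : h / (9 * ((5 : ℕ) : ℝ) ^ 2) ≤ n / 180 := by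
    push_cast
    rw [div_le_div_iff₀ (by norm_num) (by norm_num)]
    nlinarith
  have u8 : 0 ≤ 2 * (20 * 5 * (1.25 * (n : ℝ)) + 4 * ((1.25 * n) * (4 * n))) +
        2 * (2 * ((1.25 * n) * (1.25 * n)) + 2 * (1.953125 * n ^ 2)) := by positivity
  have u9 : (h / (9 * ((5 : ℕ) : ℝ) ^ 2)) * (2 * (20 * ((5 : ℕ) : ℝ) * h + 4 * (h * g)) +
      2 * (2 * (h * h) + 2 * (h * h * h / n))) ≤
      (n / 180) * (2 * (20 * 5 * (1.25 * n) + 4 * ((1.25 * n) * (4 * n))) +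
        2 * (2 * ((1.25 * n) * (1.25 * n)) + 2 * (1.953125 * n ^ 2))) := by
    refine (mul_le_mul_of_nonneg_left u5 u6).trans ?_
    exact mul_le_mul_of_nonneg_right u7 u8
  have u10 : (n : ℝ) ^ 2 ≤ (n : ℝ) ^ 3 := pow_le_pow_right₀ (by linarith) (by norm_num)
  nlinarith

/-- the range in which the sieve works -/
lemma eventually_ok : ∃ n0 : ℕ, 16 ≤ n0 ∧ ∀ n : ℕ, n0 ≤ n → ∃ r : ℕ, Odd r ∧
    8 * (10 + 2 * Real.log n) ≤ ((r + 1 : ℕ) : ℝ) ∧
    4000 * Real.log n * (1 + (n : ℝ)) ^ r ≤ 2 ^ (n / 2) := by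
  have h1 := (Real.isLittleO_pow_log_id_atTop (n := 2)).bound (c := 1 / 1000) (by norm_num)
  have h2 := tendsto_natCast_atTop_atTop (R := ℝ) |>.eventually h1
  obtain ⟨n1, hn1⟩ := Filter.eventually_atTop.mp h2
  refine ⟨max n1 16, le_max_right _ _, fun n hn => ?_⟩
  have hn16 : 16 ≤ n := (le_max_right _ _).trans hn
  have hnr : (16 : ℝ) ≤ n := by exact_mod_cast hn16
  have hb := hn1 n ((le_max_left _ _).trans hn)
  simp only [id, Real.norm_eq_abs] at hb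
  rw [abs_of_nonneg (by positivity), abs_of_nonneg (by linarith)] at hb
  set ℓ := Real.log n with hℓ
  have hl1 : 1 ≤ ℓ := by
    rw [hℓ, Real.le_log_iff_exp_le (by linarith)]
    have := Real.exp_one_lt_d9
    linarith
  refine ⟨2 * ⌈8 * (5 + ℓ)⌉₊ + 1, ⟨⌈8 * (5 + ℓ)⌉₊, rfl⟩, ?_, ?_⟩
  · have := Nat.le_ceil (8 * (5 + ℓ))
    push_cast
    linarith
  · set r : ℕ := 2 * ⌈8 * (5 + ℓ)⌉₊ + 1 with hr
    have hr1 : (r : ℝ) ≤ 83 + 16 * ℓ := by
      have := Nat.ceil_lt_add_one (by positivity : 0 ≤ 8 * (5 + ℓ))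
      rw [hr]
      push_cast
      linarith
    have hnpos : (0 : ℝ) < n := by linarith
    have a1 : (1 + (n : ℝ)) ^ r ≤ Real.exp (r * (2 * ℓ)) := by
      have b1 : 1 + (n : ℝ) ≤ Real.exp (2 * ℓ) := by
        rw [two_mul, Real.exp_add, hℓ, Real.exp_log hnpos]
        nlinarith
      calc (1 + (n : ℝ)) ^ r ≤ Real.exp (2 * ℓ) ^ r :=
            pow_le_pow_left₀ (by positivity) b1 r
        _ = _ := by rw [← Real.exp_nat_mul]
    have a2 : 4000 * ℓ ≤ Real.exp (9 + ℓ) := by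
      rw [Real.exp_add, hℓ, Real.exp_log hnpos, ← hℓ]
      have b1 : ℓ ≤ n := (Real.log_le_sub_one_of_pos hnpos).trans (by linarith)
      have b2 : (4000 : ℝ) ≤ Real.exp 9 := by
        have c1 := Real.exp_one_gt_d9
        have c2 : Real.exp 9 = Real.exp 1 ^ 9 := by rw [← Real.exp_nat_mul]; norm_num
        have c3 : (2.7 : ℝ) ^ 9 ≤ Real.exp 1 ^ 9 :=
          pow_le_pow_left₀ (by norm_num) (by linarith) 9
        rw [c2]
        norm_num at c3 ⊢
        linarith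
      gcongr
    have a3 : Real.exp ((n / 2 : ℕ) * Real.log 2) = 2 ^ (n / 2) := by
      rw [Real.exp_nat_mul, Real.exp_log (by norm_num)]
    rw [← a3]
    calc 4000 * ℓ * (1 + (n : ℝ)) ^ r ≤ Real.exp (9 + ℓ) * Real.exp (r * (2 * ℓ)) := by gcongr
      _ = Real.exp (9 + ℓ + r * (2 * ℓ)) := (Real.exp_add _ _).symm
      _ ≤ _ := by
        apply Real.exp_le_exp.mpr
        have b1 : (r : ℝ) * (2 * ℓ) ≤ (83 + 16 * ℓ) * (2 * ℓ) := by gcongr
        have b2 : ((n / 2 : ℕ) : ℝ) ≥ n / 2 - 1 := by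
          have : n ≤ 2 * (n / 2) + 1 := by omega
          have h3 : (n : ℝ) ≤ 2 * ((n / 2 : ℕ) : ℝ) + 1 := by exact_mod_cast this
          linarith
        have b3 := Real.log_two_gt_d9
        have b4 : ((n : ℝ) / 2 - 1) * 0.69 ≤ ((n / 2 : ℕ) : ℝ) * Real.log 2 := by
          have : (0 : ℝ) ≤ n / 2 - 1 := by linarith
          nlinarith
        nlinarith

/-- the main estimate -/
lemma main_bound : ∃ n0 : ℕ, 16 ≤ n0 ∧ ∀ n : ℕ, n0 ≤ n → ∀ t : ℕ, 0 < t → t ≤ n → ∀ Z X : ℕ,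
    (2 : ℝ) ^ (4 * n) ≤ X →
    (few ((n : ℝ) ^ 2 / (1600000 * Real.log n)) t Z X : ℝ) ≤
      1400000000000000 * X * Real.log n ^ 2 / n := by
  obtain ⟨n0, hn0, hok⟩ := eventually_ok
  refine ⟨n0, hn0, fun n hn t ht htn Z X hX => ?_⟩
  obtain ⟨r, hr, hrW, ha⟩ := hok n hn
  have hn16 : 16 ≤ n := hn0.trans hn
  have hnr : (16 : ℝ) ≤ n := by exact_mod_cast hn16
  have hnpos : (0 : ℝ) < n := by linarith
  have hX0 : (0 : ℝ) ≤ X := Nat.cast_nonneg X
  set ℓ := Real.log n with hℓ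
  have hl0 : 0 < ℓ := Real.log_pos (by linarith)
  have hsplit : n / 2 + (n - n / 2) = n := by omega
  have hmu := mu_lower (W := n) (a := n / 2) (m := n - n / 2) (r := r) (by omega) hr hrW ha
  rw [hsplit] at hmu
  set Y : ℕ := 2 ^ n with hY
  have hYr : (Y : ℝ) = 2 ^ n := by rw [hY]; push_cast; ring
  have hH : (n : ℝ) / 2 ≤ H Y := by
    have h1 := log_le_H Y
    have h2 : Real.log Y ≤ Real.log ((Y : ℝ) + 1) :=
      Real.log_le_log (by rw [hYr]; positivity) (by linarith)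
    rw [hYr, Real.log_pow] at h2
    have := Real.log_two_gt_d9
    rw [← hYr] at h2
    nlinarith
  have hm : (n : ℝ) / 2 ≤ ((n - n / 2 : ℕ) : ℝ) := by
    have : n ≤ 2 * (n - n / 2) := by omega
    have h3 : (n : ℝ) ≤ 2 * ((n - n / 2 : ℕ) : ℝ) := by exact_mod_cast this
    linarith
  have hmu1 : (n : ℝ) ^ 2 / (800000 * ℓ) ≤ mu n Y := by
    refine le_trans ?_ hmu
    have e : (n : ℝ) ^ 2 / (800000 * ℓ) = (n / 2) * ((n / 2) / (8000 * ℓ)) / 25 := by
      field_simp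
      norm_num
    rw [e]
    have hHn := H_nonneg Y
    gcongr
  have hC := Cr_le (by omega : 2 ≤ n)
  rw [← hY] at hC
  have hch := chebyshev (Z := Z) (Y := Y) X ht htn
  have hk : (n : ℝ) ^ 2 / (1600000 * ℓ) ≤ mu n Y / 2 := by
    have e : (n : ℝ) ^ 2 / (1600000 * ℓ) = ((n : ℝ) ^ 2 / (800000 * ℓ)) / 2 := by
      field_simp
      norm_num
    rw [e]
    linarith
  have hfew := few_le_card (t := t) (Z := Z) (W := n) (Y := Y) _ X hk
  set B := ((Finset.Ioc 0 X).filter (fun l => ((hits t Z n Y l).card : ℝ) < mu n Y / 2)).card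
  have hfew' : (few ((n : ℝ) ^ 2 / (1600000 * ℓ)) t Z X : ℝ) ≤ B := by exact_mod_cast hfew
  refine hfew'.trans ?_
  have hB0 : (0 : ℝ) ≤ B := Nat.cast_nonneg B
  have hY4 : (Y : ℝ) ^ 4 ≤ X := by
    rw [hYr, ← pow_mul, mul_comm n 4]
    exact hX
  have hn3 : (1 : ℝ) ≤ (n : ℝ) ^ 3 := one_le_pow₀ (by linarith)
  have h1 : (B : ℝ) * (((n : ℝ) ^ 2 / (800000 * ℓ)) ^ 2 / 4) ≤ 503 * (n : ℝ) ^ 3 * X := by
    calc (B : ℝ) * (((n : ℝ) ^ 2 / (800000 * ℓ)) ^ 2 / 4) ≤ B * (mu n Y ^ 2 / 4) := by gcongr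
      _ ≤ X * Cr n Y + 3 * (Y : ℝ) ^ 4 := hch
      _ ≤ X * (500 * (n : ℝ) ^ 3) + 3 * X := by gcongr
      _ ≤ _ := by nlinarith
  have h2 : (B : ℝ) ≤ 503 * (n : ℝ) ^ 3 * X / (((n : ℝ) ^ 2 / (800000 * ℓ)) ^ 2 / 4) := by
    rw [le_div_iff₀ (by positivity)]
    exact h1
  refine h2.trans ?_
  have e : 503 * (n : ℝ) ^ 3 * X / (((n : ℝ) ^ 2 / (800000 * ℓ)) ^ 2 / 4) =
      1287680000000000 * X * ℓ ^ 2 / n := by
    field_simp
    ring
  rw [e]
  gcongr
  norm_num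

/-- **Nearly `(log X)²` representations outside a small set.**  There is an absolute constant
`c > 0` such that for every `t ≥ 1` (in particular `t = 252`) every interval `(Z, Z + X]`, `X ≥ 3`,
contains at most `C X (log log X)² / log X` integers `l` such that `t * l` has fewer than
`c (log X)² / log log X` representations `p₁ x y z` with positive integers `x, y, z`, where `C`
depends only on `t`. -/
theorem result : ∃ c : ℝ, 0 < c ∧ ∀ t : ℕ, 0 < t → ∃ C : ℝ, ∀ Z X : ℕ, 3 ≤ X →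
    (Set.ncard {l : ℕ | Z < l ∧ l ≤ Z + X ∧
      ¬ AtLeast (c * Real.log X ^ 2 / Real.log (Real.log X)) ((t : ℤ) * l)} : ℝ) ≤
      C * X * Real.log (Real.log X) ^ 2 / Real.log X := by
  obtain ⟨n0, hn0, hmain⟩ := main_bound
  refine ⟨1 / 409600000, by norm_num, fun t ht => ?_⟩
  have hlog3 : 1 < Real.log 3 := by
    rw [Real.lt_log_iff_exp_lt (by norm_num)]
    have := Real.exp_one_lt_d9
    linarith
  set δ := Real.log (Real.log 3) with hδ
  have hδ0 : 0 < δ := Real.log_pos hlog3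
  set L0 : ℝ := 8 * ((n0 : ℝ) + t) with hL0
  refine ⟨L0 / δ ^ 2 + 30000000000000000, fun Z X hX => ?_⟩
  have hXr : (3 : ℝ) ≤ X := by exact_mod_cast hX
  have hXpos : (0 : ℝ) < X := by linarith
  set L := Real.log X with hL
  have hL1 : Real.log 3 ≤ L := Real.log_le_log (by norm_num) hXr
  have hLpos : 0 < L := by linarith
  set lam := Real.log L with hlam
  have hlamδ : δ ≤ lam := Real.log_le_log (by linarith) hL1
  have hlam0 : 0 < lam := hδ0.trans_le hlamδ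
  have hL0pos : 0 ≤ L0 := by positivity
  change (few (1 / 409600000 * L ^ 2 / lam) t Z X : ℝ) ≤ _
  rcases lt_or_ge L L0 with h48 | h48
  · have h1 : (few (1 / 409600000 * L ^ 2 / lam) t Z X : ℝ) ≤ X := 
      Nat.cast_le.mpr (few_le _ t Z X)
    refine h1.trans ?_
    rw [le_div_iff₀ hLpos]
    have h2 : 1 ≤ lam ^ 2 / δ ^ 2 := by
      rw [le_div_iff₀ (by positivity), one_mul]
      gcongr
    have h3 : L ≤ L0 * (lam ^ 2 / δ ^ 2) := by nlinarith
    have h4 : 0 ≤ 30000000000000000 * X * lam ^ 2 := by positivity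
    calc (X : ℝ) * L ≤ X * (L0 * (lam ^ 2 / δ ^ 2)) := by gcongr
      _ = L0 / δ ^ 2 * X * lam ^ 2 := by ring
      _ ≤ _ := by nlinarith
  · set n : ℕ := ⌊L / 8⌋₊ with hn
    have hn1 : (n : ℝ) ≤ L / 8 := Nat.floor_le (by positivity)
    have hn2 : L / 8 < n + 1 := Nat.lt_floor_add_one _
    have hnn0 : n0 + t ≤ n := by
      rw [hn]
      apply Nat.le_floor
      push_cast
      rw [hL0] at h48
      linarith
    have hn16 : (16 : ℝ) ≤ n := by
      have : 16 ≤ n := by omega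
      exact_mod_cast this
    have hnpos : (0 : ℝ) < n := by linarith
    have hnL : L / 16 ≤ n := by linarith
    have hlogn : Real.log n ≤ lam := Real.log_le_log hnpos (by linarith)
    have hlogn0 : 0 < Real.log n := Real.log_pos (by linarith)
    have hX4 : (2 : ℝ) ^ (4 * n) ≤ X := by
      have e1 : (2 : ℝ) ^ (4 * n) = Real.exp ((4 * n : ℕ) * Real.log 2) := by
        rw [Real.exp_nat_mul, Real.exp_log (by norm_num)]
      rw [e1]
      calc Real.exp ((4 * n : ℕ) * Real.log 2) ≤ Real.exp L := by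
            apply Real.exp_le_exp.mpr
            have := Real.log_two_lt_d9
            push_cast
            nlinarith
        _ = X := Real.exp_log hXpos
    have h1 := hmain n (by omega) t ht (by omega) Z X hX4
    have hk : 1 / 409600000 * L ^ 2 / lam ≤ (n : ℝ) ^ 2 / (1600000 * Real.log n) := by
      have e1 : 1 / 409600000 * L ^ 2 / lam = (L / 16) ^ 2 / (1600000 * lam) := by
        field_simp
        norm_num
      rw [e1]
      gcongr
    have h2 : few (1 / 409600000 * L ^ 2 / lam) t Z X ≤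
        few ((n : ℝ) ^ 2 / (1600000 * Real.log n)) t Z X := by
      unfold few
      refine Set.ncard_le_ncard ?_ ?_
      · intro l hl
        exact ⟨hl.1, hl.2.1, fun h => hl.2.2 (h.mono hk)⟩
      · refine Set.Finite.subset (Finset.finite_toSet (Finset.Ioc Z (Z + X))) ?_
        intro l hl
        simp only [Finset.coe_Ioc, Set.mem_Ioc]
        exact ⟨hl.1, hl.2.1⟩
    have h3 : (few (1 / 409600000 * L ^ 2 / lam) t Z X : ℝ) ≤
        few ((n : ℝ) ^ 2 / (1600000 * Real.log n)) t Z X := Nat.cast_le.mpr h2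
    refine (h3.trans h1).trans ?_
    calc 1400000000000000 * X * Real.log n ^ 2 / n
        ≤ 1400000000000000 * X * lam ^ 2 / (L / 16) := by gcongr
      _ = 22400000000000000 * X * lam ^ 2 / L := by
          field_simp
          norm_num
      _ ≤ _ := by
          have h4 : 0 ≤ L0 / δ ^ 2 := by positivity
          have h5 : (22400000000000000 : ℝ) ≤ L0 / δ ^ 2 + 30000000000000000 := by linarith
          gcongr

end Pool.Agent.Results.MP_9aa437_nt.NearOrder
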